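import Pool.Agent.FK93.Kernel
import Pool.Agent.DK10.DualLS

/-!
# FK93-Core: the exceptional set inequality

If for all `b ∈ B` and `p ∈ Pr` the point `p θ_b` avoids an interval of length `2δ` modulo one, then
`|Pr| |B| ≤ 80 (X + 1/δ0) μ`, where `μ` bounds, for every `b`, the number of coincidences modulo one
among the points `h θ_b`.
-/

namespace Pool.Agent.FK93

open Finset Pool.Agent.DK10

/-- The nonzero frequencies. -/
noncomputable def Hs (r J : ℕ) : Finset ℤ := (Icc (-(r * J : ℤ)) (r * J : ℤ)).erase 0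

theorem ee_int (k : ℤ) : ee (k : ℝ) = 1 := by
  unfold ee
  rw [Complex.exp_eq_one_iff]
  exact ⟨k, by push_cast; ring⟩

theorem ee_fract (x : ℕ) (t : ℝ) : ee ((x : ℝ) * Int.fract t) = ee ((x : ℝ) * t) := by
  have : (x : ℝ) * t = (x : ℝ) * Int.fract t + ((x * ⌊t⌋ : ℤ) : ℝ) := by
    push_cast
    rw [← mul_add, Int.fract_add_floor]
  rw [this, ee_add, ee_int, mul_one]

open Classical in
theorem core {β : Type} (B : Finset β) (Pr : Finset ℕ) (X : ℕ)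
    (hP : ∀ p ∈ Pr, 1 ≤ p ∧ p ≤ X) (θ : β → ℝ) {δ δ0 : ℝ} (hδ : 0 < δ) (hδ0 : 0 < δ0)
    {r J : ℕ} (hr : 1 ≤ r) (hJ : 1 ≤ J)
    (hrJ : 2 * ((r : ℝ) * J) ≤ (2 * J * δ) ^ (2 * r))
    (hav : ∀ b ∈ B, ∀ p ∈ Pr, ∀ k : ℤ, δ ≤ |(p : ℝ) * θ b + δ - k|)
    (hsep : ∀ b ∈ B, ∀ b' ∈ B, ∀ h h' : ℤ,
      (∃ k : ℤ, (h : ℝ) * θ b - h' * θ b' = k) ∨ ∀ k : ℤ, δ0 ≤ |(h : ℝ) * θ b - h' * θ b' - k|)
    {μ : ℝ} (hμ0 : 0 ≤ μ)
    (hμ : ∀ b ∈ B, ∑ h ∈ Hs r J, (((B ×ˢ Hs r J).filter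
      (fun z : β × ℤ => ∃ k : ℤ, (h : ℝ) * θ b - (z.2 : ℝ) * θ z.1 = k)).card : ℝ) ≤ μ) :
    (Pr.card : ℝ) * B.card ≤ 80 * (X + 1 / δ0) * μ := by
  have hJ' : (1 : ℝ) ≤ J := by exact_mod_cast hJ
  have hr' : (1 : ℝ) ≤ r := by exact_mod_cast hr
  set c0 := cc r J 0 with hc0
  have hcge := cc_zero_ge hr hJ
  have hrJpos : (0 : ℝ) < r * J := by positivity
  have hc0pos : 0 < c0 := by
    have h1 : (0 : ℝ) < (J : ℝ) ^ (2 * r) := by positivity
    by_contra h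
    push Not at h
    nlinarith
  -- step 1
  have hc1 : (1 / (2 * δ)) ^ (2 * r) ≤ c0 / 2 := by
    have e1 : (2 * (J : ℝ) * δ) ^ (2 * r) = (J : ℝ) ^ (2 * r) * (2 * δ) ^ (2 * r) := by
      rw [← mul_pow]
      congr 1
      ring
    rw [e1] at hrJ
    have e2 : (0 : ℝ) < (2 * δ) ^ (2 * r) := by positivity
    rw [one_div, inv_pow, inv_le_comm₀ e2 (by positivity)]
    rw [inv_div, div_le_iff₀ hc0pos]
    have e3 : 2 * ((r : ℝ) * J) ≤ ((r * J : ℝ) * c0) * (2 * δ) ^ (2 * r) :=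
      hrJ.trans (mul_le_mul_of_nonneg_right hcge e2.le)
    have e4 : 2 * ((r : ℝ) * J) ≤ ((2 * δ) ^ (2 * r) * c0) * (r * J) := by
      linarith [e3]
    exact le_of_mul_le_mul_right e4 hrJpos
  have hK : ∀ b ∈ B, ∀ p ∈ Pr, ‖DD J ((p : ℝ) * θ b + δ)‖ ^ (2 * r) ≤ c0 / 2 := by
    intro b hb p hp
    have h1 := DD_le_inv J hδ (hav b hb p hp)
    exact (pow_le_pow_left₀ (norm_nonneg _) h1 _).trans hc1
  -- the coefficients
  set d : β × ℤ → ℂ := fun z => (cc r J z.2 : ℂ) * ee ((z.2 : ℝ) * δ) with hd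
  have hdn : ∀ z, ‖d z‖ ≤ c0 := by
    intro z
    rw [hd]
    simp only
    rw [norm_mul, ee_norm, mul_one, Complex.norm_real, Real.norm_of_nonneg (cc_nonneg _ _ _)]
    exact cc_le _ _ _
  set T : ℕ → ℂ := fun x => ∑ z ∈ B ×ˢ Hs r J, d z * ee ((x : ℝ) * ((z.2 : ℝ) * θ z.1)) with hT
  set Z : ℂ := ∑ p ∈ Pr, T p with hZ
  have hmem0 : (0 : ℤ) ∈ Icc (-(r * J : ℤ)) (r * J : ℤ) := by
    rw [mem_Icc]
    constructor
    · have : (0 : ℤ) ≤ (r : ℤ) * J := by positivity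
      linarith
    · positivity
  have h2 : ((∑ p ∈ Pr, ∑ b ∈ B, ‖DD J ((p : ℝ) * θ b + δ)‖ ^ (2 * r) : ℝ) : ℂ) =
      ((c0 * (Pr.card * B.card) : ℝ) : ℂ) + Z := by
    have e1 : ∀ p ∈ Pr, ∀ b ∈ B, ((‖DD J ((p : ℝ) * θ b + δ)‖ ^ (2 * r) : ℝ) : ℂ) =
        (c0 : ℂ) + ∑ h ∈ Hs r J, d (b, h) * ee ((p : ℝ) * ((h : ℝ) * θ b)) := by
      intro p _ b _
      rw [kernel_eq hr hJ, ← add_sum_erase _ _ hmem0]
      congr 1
      · simp [ee, hc0]
      · unfold Hs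
        refine sum_congr rfl fun h _ => ?_
        rw [hd]
        simp only
        have : ((h : ℝ)) * ((p : ℝ) * θ b + δ) = (h : ℝ) * δ + (p : ℝ) * ((h : ℝ) * θ b) := by ring
        rw [this, ee_add]
        ring
    push_cast
    have e2 : ∀ p ∈ Pr, ∑ b ∈ B, ((‖DD J ((p : ℝ) * θ b + δ)‖ : ℂ) ^ (2 * r)) =
        (B.card : ℂ) * (c0 : ℂ) + T p := by
      intro p hp
      have e3 : ∀ b ∈ B, ((‖DD J ((p : ℝ) * θ b + δ)‖ : ℂ) ^ (2 * r)) =
        (c0 : ℂ) + ∑ h ∈ Hs r J, d (b, h) * ee ((p : ℝ) * ((h : ℝ) * θ b)) := by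
        intro b hb
        rw [← e1 p hp b hb]
        push_cast
        rfl
      rw [sum_congr rfl e3, sum_add_distrib, sum_const, nsmul_eq_mul, hT]
      simp only
      rw [sum_product]
    rw [sum_congr rfl e2, sum_add_distrib, sum_const, nsmul_eq_mul]
    ring
  have h3 : ∑ p ∈ Pr, ∑ b ∈ B, ‖DD J ((p : ℝ) * θ b + δ)‖ ^ (2 * r) ≤
      (Pr.card * B.card : ℝ) * (c0 / 2) := by
    have : ∑ p ∈ Pr, ∑ b ∈ B, ‖DD J ((p : ℝ) * θ b + δ)‖ ^ (2 * r) ≤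
        ∑ p ∈ Pr, ∑ b ∈ B, c0 / 2 := sum_le_sum fun p hp => sum_le_sum fun b hb => hK b hb p hp
    refine this.trans (le_of_eq ?_)
    simp only [sum_const, nsmul_eq_mul]
    ring
  have h4 : (Pr.card * B.card : ℝ) * (c0 / 2) ≤ ‖Z‖ := by
    have e1 : Z.re = (∑ p ∈ Pr, ∑ b ∈ B, ‖DD J ((p : ℝ) * θ b + δ)‖ ^ (2 * r)) -
        c0 * (Pr.card * B.card) := by
      have := congrArg Complex.re h2
      rw [Complex.add_re, Complex.ofReal_re, Complex.ofReal_re] at this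
      linarith
    have e2 := Complex.abs_re_le_norm Z
    have e3 : -Z.re ≤ |Z.re| := neg_le_abs _
    linarith
  -- step 3
  have h5 : ‖Z‖ ^ 2 ≤ (Pr.card : ℝ) * ∑ x ∈ Icc 1 X, ‖T x‖ ^ 2 := by
    have e1 : ‖Z‖ ≤ ∑ p ∈ Pr, ‖T p‖ := norm_sum_le _ _
    have e2 := sq_sum_le_card_mul_sum_sq (s := Pr) (f := fun p => ‖T p‖)
    have e3 : ∑ p ∈ Pr, ‖T p‖ ^ 2 ≤ ∑ x ∈ Icc 1 X, ‖T x‖ ^ 2 := by
      apply sum_le_sum_of_subset_of_nonneg
      · intro p hp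
        rw [mem_Icc]
        exact hP p hp
      · intro _ _ _
        positivity
    calc ‖Z‖ ^ 2 ≤ (∑ p ∈ Pr, ‖T p‖) ^ 2 := pow_le_pow_left₀ (norm_nonneg _) e1 2
      _ ≤ (Pr.card : ℝ) * ∑ p ∈ Pr, ‖T p‖ ^ 2 := e2
      _ ≤ _ := mul_le_mul_of_nonneg_left e3 (Nat.cast_nonneg _)
  -- step 4
  set g : β × ℤ → ℝ := fun z => Int.fract ((z.2 : ℝ) * θ z.1) with hg
  set S : Finset ℝ := (B ×ˢ Hs r J).image g with hS
  have h6 : ∀ x : ℕ, T x = ∑ s : S, (∑ z ∈ (B ×ˢ Hs r J).filter (fun z => g z = (s : ℝ)), d z) *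
      ee ((x : ℝ) * (s : ℝ)) := by
    intro x
    rw [Finset.sum_coe_sort S (fun s => (∑ z ∈ (B ×ˢ Hs r J).filter (fun z => g z = s), d z) *
      ee ((x : ℝ) * s))]
    rw [hT]
    simp only
    rw [← sum_fiberwise_of_maps_to (s := B ×ˢ Hs r J) (t := S) (g := g)
      (fun z hz => mem_image_of_mem g hz)]
    refine sum_congr rfl fun s _ => ?_
    rw [sum_mul]
    refine sum_congr rfl fun z hz => ?_
    have := (mem_filter.1 hz).2
    rw [← this, hg]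
    simp only
    rw [ee_fract]
  have hsepS : ∀ s t : S, s ≠ t → ∀ k : ℤ, δ0 ≤ |(s : ℝ) - (t : ℝ) - (k : ℝ)| := by
    rintro ⟨s, hs⟩ ⟨t, ht⟩ hne k
    obtain ⟨⟨b, h⟩, hz, rfl⟩ := mem_image.1 hs
    obtain ⟨⟨b', h'⟩, hz', rfl⟩ := mem_image.1 ht
    have hb := (mem_product.1 hz).1
    have hb' := (mem_product.1 hz').1
    simp only [hg]
    rcases hsep b hb b' hb' h h' with ⟨k0, hk0⟩ | hall
    · exfalso
      apply hne
      have e1 : Int.fract ((h : ℝ) * θ b) = Int.fract ((h' : ℝ) * θ b') := by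
        rw [Int.fract_eq_fract]
        exact ⟨k0, hk0⟩
      apply Subtype.ext
      simpa [hg] using e1
    · have := hall (k + ⌊(h : ℝ) * θ b⌋ - ⌊(h' : ℝ) * θ b'⌋)
      have e1 : (h : ℝ) * θ b = ⌊(h : ℝ) * θ b⌋ + Int.fract ((h : ℝ) * θ b) :=
        (Int.floor_add_fract _).symm
      have e2 : (h' : ℝ) * θ b' = ⌊(h' : ℝ) * θ b'⌋ + Int.fract ((h' : ℝ) * θ b') :=
        (Int.floor_add_fract _).symm
      refine this.trans (le_of_eq ?_)
      congr 1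
      push_cast
      linarith
  have h7 := dual_ls (fun s : S => (s : ℝ)) hδ0 hsepS
    (fun s => ∑ z ∈ (B ×ˢ Hs r J).filter (fun z => g z = (s : ℝ)), d z) X
  simp only [← h6] at h7
  -- step 5
  have h8 : ∑ s : S, ‖∑ z ∈ (B ×ˢ Hs r J).filter (fun z => g z = (s : ℝ)), d z‖ ^ 2 ≤
      c0 ^ 2 * (B.card * μ) := by
    rw [Finset.sum_coe_sort S
      (fun s => ‖∑ z ∈ (B ×ˢ Hs r J).filter (fun z => g z = s), d z‖ ^ 2)]
    have e1 : ∀ s ∈ S, ‖∑ z ∈ (B ×ˢ Hs r J).filter (fun z => g z = s), d z‖ ^ 2 ≤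
        c0 ^ 2 * ∑ z ∈ (B ×ˢ Hs r J).filter (fun z => g z = s),
          (((B ×ˢ Hs r J).filter (fun w => g w = g z)).card : ℝ) := by
      intro s _
      set F := (B ×ˢ Hs r J).filter (fun z => g z = s) with hF
      have a1 : ‖∑ z ∈ F, d z‖ ≤ F.card * c0 := by
        refine (norm_sum_le _ _).trans ?_
        refine (sum_le_sum fun z _ => hdn z).trans (le_of_eq ?_)
        rw [sum_const, nsmul_eq_mul]
      have a2 : ∑ z ∈ F, (((B ×ˢ Hs r J).filter (fun w => g w = g z)).card : ℝ) =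
          F.card * F.card := by
        have : ∀ z ∈ F, (((B ×ˢ Hs r J).filter (fun w => g w = g z)).card : ℝ) = F.card := by
          intro z hz
          rw [hF, (mem_filter.1 hz).2]
        rw [sum_congr rfl this, sum_const, nsmul_eq_mul]
      rw [a2]
      calc ‖∑ z ∈ F, d z‖ ^ 2 ≤ (F.card * c0) ^ 2 := pow_le_pow_left₀ (norm_nonneg _) a1 2
        _ = _ := by ring
    refine (sum_le_sum e1).trans ?_
    rw [← mul_sum]
    apply mul_le_mul_of_nonneg_left _ (by positivity)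
    rw [sum_fiberwise_of_maps_to (s := B ×ˢ Hs r J) (t := S) (g := g)
      (fun z hz => mem_image_of_mem g hz)]
    rw [sum_product]
    have e2 : ∀ b ∈ B, ∑ h ∈ Hs r J, (((B ×ˢ Hs r J).filter (fun w => g w = g (b, h))).card : ℝ) ≤
        μ := by
      intro b hb
      refine le_trans (sum_le_sum fun h _ => ?_) (hμ b hb)
      have : ((B ×ˢ Hs r J).filter (fun w => g w = g (b, h))).card ≤ ((B ×ˢ Hs r J).filter
        (fun z : β × ℤ => ∃ k : ℤ, (h : ℝ) * θ b - (z.2 : ℝ) * θ z.1 = k)).card := by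
        apply card_le_card
        intro w hw
        rw [mem_filter] at hw ⊢
        refine ⟨hw.1, ?_⟩
        have hw2 : g (b, h) = g w := hw.2.symm
        simp only [hg] at hw2
        rw [Int.fract_eq_fract] at hw2
        exact hw2
      exact_mod_cast this
    refine (sum_le_sum e2).trans (le_of_eq ?_)
    rw [sum_const, nsmul_eq_mul]
  -- conclusion
  have hX : (0 : ℝ) ≤ 20 * ((X : ℝ) + 1 / δ0) := by positivity
  have h9 : ((Pr.card * B.card : ℝ) * (c0 / 2)) ^ 2 ≤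
      (Pr.card : ℝ) * (20 * ((X : ℝ) + 1 / δ0) * (c0 ^ 2 * (B.card * μ))) := by
    calc ((Pr.card * B.card : ℝ) * (c0 / 2)) ^ 2 ≤ ‖Z‖ ^ 2 :=
          pow_le_pow_left₀ (by positivity) h4 2
      _ ≤ (Pr.card : ℝ) * ∑ x ∈ Icc 1 X, ‖T x‖ ^ 2 := h5
      _ ≤ _ := by
        apply mul_le_mul_of_nonneg_left _ (Nat.cast_nonneg _)
        exact h7.trans (mul_le_mul_of_nonneg_left h8 hX)
  rcases Nat.eq_zero_or_pos Pr.card with hp0 | hp0
  · rw [hp0]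
    simp only [Nat.cast_zero, zero_mul]
    positivity
  rcases Nat.eq_zero_or_pos B.card with hb0 | hb0
  · rw [hb0]
    simp only [Nat.cast_zero, mul_zero]
    positivity
  have hp1 : (0 : ℝ) < Pr.card := by exact_mod_cast hp0
  have hb1 : (0 : ℝ) < B.card := by exact_mod_cast hb0
  have h10 : (c0 ^ 2 * (Pr.card * B.card)) * ((Pr.card : ℝ) * B.card) ≤
      (c0 ^ 2 * (Pr.card * B.card)) * (80 * ((X : ℝ) + 1 / δ0) * μ) := by
    nlinarith [h9]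
  exact le_of_mul_le_mul_left h10 (by positivity)

end Pool.Agent.FK93
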