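import Pool.Agent.FK93.Core

/-!
# FK93-Count: counting coincidences
-/

namespace Pool.Agent.FK93

open Finset Pool.Agent.DK10

theorem card_res (W n : ℕ) (hn : 1 ≤ n) (a : ℤ) :
    (((Icc (-(W : ℤ)) W).filter (fun w => (n : ℤ) ∣ w - a)).card : ℝ) ≤ 2 * W / n + 2 := by
  have hn' : (0 : ℤ) < n := by exact_mod_cast hn
  have h := Int.Ioc_filter_modEq_card (-(W : ℤ) - 1) W hn' a
  have e : (Icc (-(W : ℤ)) W).filter (fun w => (n : ℤ) ∣ w - a) =
      (Ioc (-(W : ℤ) - 1) W).filter (fun x => x ≡ a [ZMOD n]) := by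
    ext x
    simp only [mem_filter, mem_Icc, mem_Ioc, Int.modEq_iff_dvd]
    constructor
    · rintro ⟨⟨h1, h2⟩, h3⟩
      refine ⟨⟨by omega, h2⟩, ?_⟩
      rw [← dvd_neg]
      simpa using h3
    · rintro ⟨⟨h1, h2⟩, h3⟩
      refine ⟨⟨by omega, h2⟩, ?_⟩
      rw [← dvd_neg]
      simpa using h3
  rw [← e] at h
  set c := ((Icc (-(W : ℤ)) W).filter (fun w => (n : ℤ) ∣ w - a)).card with hc
  have hnq : (0 : ℚ) < (n : ℚ) := by exact_mod_cast hn
  have h1 : ((c : ℤ) : ℚ) ≤ 2 * W / n + 2 := by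
    rw [h]
    push_cast
    apply max_le
    · have f1 := Int.floor_le (((W : ℚ) - a) / (n : ℚ))
      have f2 := Int.sub_one_lt_floor ((-(W : ℚ) - 1 - a) / (n : ℚ))
      have f3 : ((W : ℚ) - a) / (n : ℚ) - ((-(W : ℚ) - 1 - a) / (n : ℚ) - 1) ≤ 2 * W / n + 2 := by
        have : ((W : ℚ) - a) / (n : ℚ) - ((-(W : ℚ) - 1 - a) / (n : ℚ) - 1) =
            2 * W / n + 1 / n + 1 := by
          field_simp
          ring
        rw [this]
        have : (1 : ℚ) / n ≤ 1 := by
          rw [div_le_one hnq]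
          exact_mod_cast hn
        linarith
      linarith
    · positivity
  have h2 : ((c : ℤ) : ℚ) = (c : ℚ) := by push_cast; rfl
  rw [h2] at h1
  have h3 : ((c : ℚ) : ℝ) ≤ ((2 * W / n + 2 : ℚ) : ℝ) := by exact_mod_cast h1
  push_cast at h3
  exact h3

theorem card_mul (B : Finset ℕ) (K : Finset ℤ) (W T : ℕ) (S : Finset ℤ)
    (h0 : ∀ w ∈ S, w ≠ 0 ∧ w.natAbs ≤ W)
    (hT : ∀ w : ℕ, 1 ≤ w → w ≤ W → w.divisors.card ≤ T) :
    ((B ×ˢ K).filter (fun z => z.2 * (z.1 : ℤ) ∈ S)).card ≤ T * S.card := by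
  apply card_le_mul_card_image_of_maps_to (f := fun z : ℕ × ℤ => z.2 * (z.1 : ℤ))
  · intro z hz
    exact (mem_filter.1 hz).2
  · intro w hw
    obtain ⟨hw0, hwW⟩ := h0 w hw
    refine le_trans ?_ (hT w.natAbs (Int.natAbs_pos.2 hw0) hwW)
    apply card_le_card_of_injOn (fun z : ℕ × ℤ => z.1)
    · intro z hz
      have hz2 : z.2 * (z.1 : ℤ) = w := (mem_filter.1 hz).2
      simp only [coe_sort_coe, mem_coe, Nat.mem_divisors]
      refine ⟨?_, Int.natAbs_ne_zero.2 hw0⟩
      rw [← hz2, Int.natAbs_mul, Int.natAbs_natCast]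
      exact dvd_mul_left _ _
    · intro z hz z' hz' he
      have hz2 : z.2 * (z.1 : ℤ) = w := (mem_filter.1 hz).2
      have hz2' : z'.2 * (z'.1 : ℤ) = w := (mem_filter.1 hz').2
      simp only at he
      have h1 : (z.1 : ℤ) ≠ 0 := by
        intro h
        rw [h, mul_zero] at hz2
        exact hw0 hz2.symm
      apply Prod.ext he
      have : z.2 * (z.1 : ℤ) = z'.2 * (z.1 : ℤ) := by
        rw [hz2, ← hz2', he]
      exact mul_right_cancel₀ h1 this

theorem card_Hs (r J : ℕ) : ((Hs r J).card : ℝ) = 2 * (r * J) := by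
  unfold Hs
  have hmem0 : (0 : ℤ) ∈ Icc (-(r * J : ℤ)) (r * J : ℤ) := by
    rw [mem_Icc]
    constructor
    · have : (0 : ℤ) ≤ (r : ℤ) * J := by positivity
      linarith
    · positivity
  rw [card_erase_of_mem hmem0, Int.card_Icc]
  have : ((r : ℤ) * J + 1 - -((r : ℤ) * J)).toNat - 1 = 2 * (r * J) := by
    have h : ((r : ℤ) * J + 1 - -((r : ℤ) * J)) = ((2 * (r * J) + 1 : ℕ) : ℤ) := by
      push_cast
      ring
    rw [h, Int.toNat_natCast]
    omega
  rw [this]
  push_cast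
  ring

/-- `m < n`, `m` does not divide `n`, and none of the numbers `⌊kn/m⌋`, `1 ≤ k < n`, is prime. -/
def Fails (n m : ℕ) : Prop :=
  0 < m ∧ m < n ∧ ¬ m ∣ n ∧ ∀ k, 1 ≤ k → k < n → ¬ (k * n / m).Prime

/-- If `(n, m)` fails then `p m / n` avoids `(-m/n, 0)` modulo one for every prime `p`. -/
theorem avoid {n m : ℕ} (hf : Fails n m) {δ : ℝ} (hδ : 2 * δ * n ≤ m) {p : ℕ} (hp : p.Prime)
    (hpm : (p + 1) * m ≤ n * n) (k : ℤ) : δ ≤ |(p : ℝ) * ((m : ℝ) / n) + δ - k| := by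
  obtain ⟨hm0, hmn, _, hall⟩ := hf
  by_contra hcon
  push Not at hcon
  have hn0 : (0 : ℝ) < n := by exact_mod_cast (by omega : 0 < n)
  rw [abs_lt] at hcon
  obtain ⟨h1, h2⟩ := hcon
  have e : (p : ℝ) * ((m : ℝ) / n) * n = p * m := by field_simp
  have h3 : (0 : ℝ) < (k : ℝ) * n - p * m := by
    have : (p : ℝ) * ((m : ℝ) / n) < k := by linarith
    have := mul_lt_mul_of_pos_right this hn0
    rw [e] at this
    linarith
  have h4 : (k : ℝ) * n - p * m < m := by
    have : (k : ℝ) < (p : ℝ) * ((m : ℝ) / n) + 2 * δ := by linarith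
    have := mul_lt_mul_of_pos_right this hn0
    rw [add_mul, e] at this
    linarith
  have h3' : 0 < k * n - p * m := by exact_mod_cast h3
  have h4' : k * n - p * m < m := by exact_mod_cast h4
  have hpm0 : (0 : ℤ) ≤ (p : ℤ) * m := by positivity
  have hk0 : 0 < k := by
    by_contra hk
    push Not at hk
    have : k * (n : ℤ) ≤ 0 := mul_nonpos_of_nonpos_of_nonneg hk (Int.natCast_nonneg n)
    omega
  obtain ⟨j, rfl⟩ : ∃ j : ℕ, k = (j : ℤ) := ⟨k.toNat, by omega⟩
  have h5 : p * m < j * n := by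
    have : (p : ℤ) * m < j * n := by linarith
    exact_mod_cast this
  have h6 : j * n < p * m + m := by
    have : (j : ℤ) * n < p * m + m := by linarith
    exact_mod_cast this
  have hj1 : 1 ≤ j := by omega
  have hjn : j < n := by
    have : j * n < n * n := by
      calc j * n < p * m + m := h6
        _ = (p + 1) * m := by ring
        _ ≤ n * n := hpm
    exact lt_of_mul_lt_mul_right this (Nat.zero_le _)
  apply hall j hj1 hjn
  have : j * n / m = p := by
    apply Nat.div_eq_of_lt_le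
    · exact h5.le
    · calc j * n < p * m + m := h6
        _ = (p + 1) * m := by ring
  rw [this]
  exact hp

end Pool.Agent.FK93
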