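import Pool.Agent.FK93.PartB
import Pool.Agent.DK10.TauBound
import Pool.Agent.GW6.Cheb

/-!
# FK93-FinalA: choice of the parameters
-/

namespace Pool.Agent.FK93

open Finset Pool.Agent.DK10

/-- A lower bound for the number of primes. -/
theorem primes_ge {η : ℝ} (hη : 0 < η) (x : ℕ) (hx : 2 ≤ x) :
    η / 10 * (x : ℝ) ^ (1 - η) ≤ (((Icc 1 x).filter Nat.Prime).card : ℝ) := by
  refine le_trans ?_ (Pool.Agent.GW6.cheb_ge x hx)
  have hx' : (2 : ℝ) ≤ x := by exact_mod_cast hx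
  have hx0 : (0 : ℝ) < x := by linarith
  have hl : 0 < Real.log x := Real.log_pos (by linarith)
  have h1 : Real.log x ≤ (x : ℝ) ^ η / η := Real.log_le_rpow_div hx0.le hη
  have hxp : 0 < (x : ℝ) ^ η := by positivity
  have h2 : (x : ℝ) ^ (1 - η) = x / (x : ℝ) ^ η := by
    rw [Real.rpow_sub hx0, Real.rpow_one]
  rw [h2]
  have h3 : (x : ℝ) / ((x : ℝ) ^ η / η) ≤ x / Real.log x := div_le_div_of_nonneg_left hx0.le hl h1
  have h4 : η / 10 * ((x : ℝ) / (x : ℝ) ^ η) = 1 / 10 * ((x : ℝ) / ((x : ℝ) ^ η / η)) := by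
    field_simp
  rw [h4]
  linarith

/-- The choice of `r` and `J`. -/
theorem choice {η : ℝ} (hη : 0 < η) : ∃ r : ℕ, 1 ≤ r ∧ ∀ K M : ℕ, 1 ≤ M → M ≤ K →
    ∃ J : ℕ, 1 ≤ J ∧ 2 * ((r : ℝ) * J) ≤ ((J : ℝ) * M / K) ^ (2 * r) ∧
      (r : ℝ) * J * M ≤ 8 * (r : ℝ) ^ 2 * (K : ℝ) ^ (1 + η) := by
  obtain ⟨s, hs⟩ := exists_nat_gt (1 / η)
  have hs1 : 1 < s * η := by
    rw [div_lt_iff₀ hη] at hs
    exact hs
  refine ⟨s + 1, by omega, fun K M hM hMK => ?_⟩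
  set r := s + 1 with hr
  have hr1 : (1 : ℝ) ≤ r := by
    rw [hr]
    push_cast
    have : (0 : ℝ) ≤ s := Nat.cast_nonneg s
    linarith
  have hM' : (1 : ℝ) ≤ M := by exact_mod_cast hM
  have hMK' : (M : ℝ) ≤ K := by exact_mod_cast hMK
  have hK' : (1 : ℝ) ≤ K := hM'.trans hMK'
  have hK0 : (0 : ℝ) < K := by linarith
  have hM0 : (0 : ℝ) < M := by linarith
  have hr0 : (0 : ℝ) < r := by linarith
  set y := (K : ℝ) ^ η with hy
  have hy1 : 1 ≤ y := Real.one_le_rpow hK' hη.le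
  set L := 4 * (r : ℝ) * y with hL
  have hL1 : 1 ≤ L := by
    rw [hL]
    nlinarith
  have hq1 : 1 ≤ (K : ℝ) * L / M := by
    rw [le_div_iff₀ hM0]
    nlinarith
  set J := ⌈(K : ℝ) * L / M⌉₊ with hJ
  have hJ1 : (K : ℝ) * L / M ≤ J := Nat.le_ceil _
  have hJ2 : (J : ℝ) ≤ 2 * ((K : ℝ) * L / M) := by
    have : (J : ℝ) < (K : ℝ) * L / M + 1 := Nat.ceil_lt_add_one (by positivity)
    linarith
  have hJ3 : (J : ℝ) * M ≤ 2 * (K * L) := by
    calc (J : ℝ) * M ≤ 2 * ((K : ℝ) * L / M) * M := mul_le_mul_of_nonneg_right hJ2 hM0.le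
      _ = _ := by field_simp
  have hJ4 : (J : ℝ) ≤ 2 * (K * L) := by
    have : (J : ℝ) * 1 ≤ J * M := mul_le_mul_of_nonneg_left hM' (Nat.cast_nonneg _)
    linarith
  refine ⟨J, ?_, ?_, ?_⟩
  · rw [hJ]
    exact Nat.one_le_ceil_iff.2 (by linarith)
  · have h1 : L ≤ (J : ℝ) * M / K := by
      rw [le_div_iff₀ hK0]
      have := mul_le_mul_of_nonneg_right hJ1 hM0.le
      have e : (K : ℝ) * L / M * M = L * K := by field_simp
      linarith
    have h2 : 4 * r * K * L ≤ L ^ (2 * r) := by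
      have e1 : 2 * r = (2 * s + 1) + 1 := by omega
      rw [e1, pow_succ]
      apply mul_le_mul_of_nonneg_right _ (by linarith)
      have e2 : L ^ (2 * s + 1) = (4 * r) ^ (2 * s + 1) * y ^ (2 * s + 1) := by
        rw [hL, mul_pow]
      rw [e2]
      apply mul_le_mul
      · calc (4 * (r : ℝ)) = (4 * r) ^ 1 := by ring
          _ ≤ (4 * (r : ℝ)) ^ (2 * s + 1) := by
            apply pow_le_pow_right₀ (by linarith)
            omega
      · rw [hy, ← Real.rpow_natCast, ← Real.rpow_mul hK0.le]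
        calc (K : ℝ) = (K : ℝ) ^ (1 : ℝ) := (Real.rpow_one _).symm
          _ ≤ (K : ℝ) ^ (η * ((2 * s + 1 : ℕ) : ℝ)) := by
            apply Real.rpow_le_rpow_of_exponent_le hK'
            push_cast
            nlinarith
      · exact hK0.le
      · positivity
    calc 2 * ((r : ℝ) * J) ≤ 2 * (r * (2 * (K * L))) := by gcongr
      _ = 4 * r * K * L := by ring
      _ ≤ L ^ (2 * r) := h2
      _ ≤ _ := pow_le_pow_left₀ (by linarith) h1 _
  · calc (r : ℝ) * J * M = r * (J * M) := by ring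
      _ ≤ r * (2 * (K * L)) := mul_le_mul_of_nonneg_left hJ3 hr0.le
      _ = 8 * (r : ℝ) ^ 2 * (K * y) := by
        rw [hL]
        ring
      _ = 8 * (r : ℝ) ^ 2 * (K : ℝ) ^ (1 + η) := by
        rw [hy, Real.rpow_add hK0, Real.rpow_one]

/-- The choice of `T`. -/
theorem choiceT {η : ℝ} (hη : 0 < η) (hη1 : η ≤ 1) {B : ℝ} (hB : 0 < B) :
    ∃ A : ℝ, 0 < A ∧ ∀ K : ℕ, 1 ≤ K → ∃ T : ℕ,
      (∀ w : ℕ, 1 ≤ w → (w : ℝ) ≤ B * (K : ℝ) ^ (1 + η) → w.divisors.card ≤ T) ∧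
      (T : ℝ) ≤ A * (K : ℝ) ^ (2 * η) := by
  obtain ⟨C, hC, htau⟩ := tau_bound hη
  refine ⟨C * B ^ η, by positivity, fun K hK => ?_⟩
  have hK' : (1 : ℝ) ≤ K := by exact_mod_cast hK
  have hK0 : (0 : ℝ) < K := by linarith
  refine ⟨⌊C * (B * (K : ℝ) ^ (1 + η)) ^ η⌋₊, fun w hw hwB => ?_, ?_⟩
  · apply Nat.le_floor
    refine (htau w (by omega)).trans ?_
    apply mul_le_mul_of_nonneg_left _ hC.le
    exact Real.rpow_le_rpow (Nat.cast_nonneg _) hwB hη.le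
  · refine (Nat.floor_le (by positivity)).trans ?_
    rw [Real.mul_rpow hB.le (by positivity), ← Real.rpow_mul hK0.le, mul_assoc]
    apply mul_le_mul_of_nonneg_left _ hC.le
    apply mul_le_mul_of_nonneg_left _ (by positivity)
    apply Real.rpow_le_rpow_of_exponent_le hK'
    nlinarith

open Classical in
theorem blockA {η : ℝ} (hη : 0 < η) (hη1 : η ≤ 1) : ∃ C : ℝ, 0 < C ∧
    ∀ n M : ℕ, 3 ≤ n → 1 ≤ M → M ≤ n →
      (((Ioc M (2 * M)).filter (Fails n)).card : ℝ) * M ≤ C * (n : ℝ) ^ (1 + 5 * η) := by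
  obtain ⟨r, hr, hchoice⟩ := choice hη
  have hr' : (1 : ℝ) ≤ r := by exact_mod_cast hr
  have hr0 : (0 : ℝ) < r := by linarith
  obtain ⟨A, hA, hT⟩ := choiceT hη hη1 (B := 16 * (r : ℝ) ^ 2) (by positivity)
  refine ⟨160 * 2 * 8 * 34 * A * (r : ℝ) ^ 4 * (20 / η), by positivity, fun n M hn hM hMn => ?_⟩
  obtain ⟨J, hJ, hrJ, hy⟩ := hchoice n M hM hMn
  obtain ⟨T, hT1, hT2⟩ := hT n (by omega)
  have hn' : (3 : ℝ) ≤ n := by exact_mod_cast hn
  have hn0 : (0 : ℝ) < n := by linarith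
  have hM0 : (0 : ℝ) < M := by exact_mod_cast hM
  have h := partA (n := n) (M := M) (r := r) (J := J) (T := T) (by omega) hM hr hJ hrJ (by
    intro w hw1 hw2
    apply hT1 w hw1
    have : (w : ℝ) ≤ r * J * (2 * M) := by exact_mod_cast hw2
    refine this.trans ?_
    calc (r : ℝ) * J * (2 * M) = 2 * (r * J * M) := by ring
      _ ≤ 2 * (8 * (r : ℝ) ^ 2 * (n : ℝ) ^ (1 + η)) := by linarith
      _ = _ := by ring)
  set c := (((Ioc M (2 * M)).filter (Fails n)).card : ℝ) with hc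
  have hc0 : 0 ≤ c := Nat.cast_nonneg _
  -- the primes
  have hp : η / 20 * (n : ℝ) ^ (1 - η) ≤ (((Icc 1 (n - 1)).filter Nat.Prime).card : ℝ) := by
    refine le_trans ?_ (primes_ge hη (n - 1) (by omega))
    have h1 : (n : ℝ) / 2 ≤ ((n - 1 : ℕ) : ℝ) := by
      rw [Nat.cast_sub (by omega)]
      push_cast
      linarith
    have h2 : ((n : ℝ) / 2) ^ (1 - η) ≤ ((n - 1 : ℕ) : ℝ) ^ (1 - η) :=
      Real.rpow_le_rpow (by positivity) h1 (by linarith)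
    have h3 : (n : ℝ) ^ (1 - η) / 2 ≤ ((n : ℝ) / 2) ^ (1 - η) := by
      rw [Real.div_rpow hn0.le (by norm_num)]
      apply div_le_div_of_nonneg_left (by positivity) (by positivity)
      calc (2 : ℝ) ^ (1 - η) ≤ 2 ^ (1 : ℝ) :=
            Real.rpow_le_rpow_of_exponent_le (by norm_num) (by linarith)
        _ = 2 := Real.rpow_one _
    calc η / 20 * (n : ℝ) ^ (1 - η) = η / 10 * ((n : ℝ) ^ (1 - η) / 2) := by ring
      _ ≤ η / 10 * ((n - 1 : ℕ) : ℝ) ^ (1 - η) := by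
        apply mul_le_mul_of_nonneg_left (h3.trans h2) (by positivity)
  -- the right-hand side
  have hyn : (1 : ℝ) ≤ (n : ℝ) ^ η := Real.one_le_rpow (by linarith) hη.le
  have hr2 : (1 : ℝ) ≤ (r : ℝ) ^ 2 := by nlinarith
  have hfac : 2 * ((r : ℝ) * J * (2 * M)) / n + 2 ≤ 34 * (r : ℝ) ^ 2 * (n : ℝ) ^ η := by
    have h1 : 2 * ((r : ℝ) * J * (2 * M)) / n ≤ 32 * (r : ℝ) ^ 2 * (n : ℝ) ^ η := by
      rw [div_le_iff₀ hn0]
      have e : (n : ℝ) ^ (1 + η) = n * (n : ℝ) ^ η := by rw [Real.rpow_add hn0, Real.rpow_one]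
      rw [e] at hy
      calc 2 * ((r : ℝ) * J * (2 * M)) = 4 * (r * J * M) := by ring
        _ ≤ 4 * (8 * (r : ℝ) ^ 2 * (n * (n : ℝ) ^ η)) := by linarith
        _ = _ := by ring
    nlinarith
  have hrhs : (160 * n * (2 * (r * J) * (T * (2 * (r * J * (2 * M)) / n + 2))) : ℝ) * M ≤
      160 * 2 * 8 * 34 * A * (r : ℝ) ^ 4 * (n : ℝ) ^ (2 + 4 * η) := by
    have e1 : (n : ℝ) ^ (2 + 4 * η) =
        n * (n : ℝ) ^ (1 + η) * ((n : ℝ) ^ (2 * η) * (n : ℝ) ^ η) := by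
      rw [← Real.rpow_add hn0]
      nth_rw 2 [← Real.rpow_one (n : ℝ)]
      rw [← Real.rpow_add hn0, ← Real.rpow_add hn0]
      congr 1
      ring
    calc (160 * n * (2 * (r * J) * (T * (2 * (r * J * (2 * M)) / n + 2))) : ℝ) * M
        = 320 * n * (r * J * M) * (T * (2 * (r * J * (2 * M)) / n + 2)) := by ring
      _ ≤ 320 * n * (8 * (r : ℝ) ^ 2 * (n : ℝ) ^ (1 + η)) *
          ((A * (n : ℝ) ^ (2 * η)) * (34 * (r : ℝ) ^ 2 * (n : ℝ) ^ η)) := by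
        gcongr
      _ = _ := by
        rw [e1]
        ring
  have hfin : η / 20 * (n : ℝ) ^ (1 - η) * (c * M) ≤
      160 * 2 * 8 * 34 * A * (r : ℝ) ^ 4 * (n : ℝ) ^ (2 + 4 * η) := by
    refine le_trans ?_ hrhs
    calc η / 20 * (n : ℝ) ^ (1 - η) * (c * M) = (η / 20 * (n : ℝ) ^ (1 - η) * c) * M := by ring
      _ ≤ ((((Icc 1 (n - 1)).filter Nat.Prime).card : ℝ) * c) * M := by gcongr
      _ ≤ _ := mul_le_mul_of_nonneg_right h hM0.le
  have hpos : 0 < η / 20 * (n : ℝ) ^ (1 - η) := by positivity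
  have e2 : 160 * 2 * 8 * 34 * A * (r : ℝ) ^ 4 * (n : ℝ) ^ (2 + 4 * η) =
      η / 20 * (n : ℝ) ^ (1 - η) *
        (160 * 2 * 8 * 34 * A * (r : ℝ) ^ 4 * (20 / η) * (n : ℝ) ^ (1 + 5 * η)) := by
    have e3 : (n : ℝ) ^ (2 + 4 * η) = (n : ℝ) ^ (1 - η) * (n : ℝ) ^ (1 + 5 * η) := by
      rw [← Real.rpow_add hn0]
      congr 1
      ring
    rw [e3]
    field_simp
  rw [e2] at hfin
  exact le_of_mul_le_mul_left hfin hpos

end Pool.Agent.FK93
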