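import Pool.Agent.FK93.FinalA

/-!
# FK93-FinalB: the two bounds
-/

namespace Pool.Agent.FK93

open Finset Pool.Agent.DK10

theorem log_blocks {η : ℝ} (hη : 0 < η) (hη1 : η ≤ 1) (n : ℕ) (hn : 1 ≤ n) :
    ((Nat.log 2 n + 1 : ℕ) : ℝ) ≤ 3 / η * (n : ℝ) ^ η := by
  have hn' : (1 : ℝ) ≤ n := by exact_mod_cast hn
  have hn0 : (0 : ℝ) < n := by linarith
  have h2 : (2 : ℝ) ^ (Nat.log 2 n) ≤ n := by
    have := Nat.pow_log_le_self 2 (x := n) (by omega)
    exact_mod_cast this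
  have h3 : (Nat.log 2 n : ℝ) * Real.log 2 ≤ Real.log n := by
    have := Real.log_le_log (by positivity) h2
    rwa [Real.log_pow] at this
  have h4 : Real.log n ≤ (n : ℝ) ^ η / η := Real.log_le_rpow_div hn0.le hη
  have h5 := Real.log_two_gt_d9
  have h6 : (1 : ℝ) ≤ (n : ℝ) ^ η := Real.one_le_rpow hn' hη.le
  have h7 : (1 : ℝ) ≤ (n : ℝ) ^ η / η := by
    rw [le_div_iff₀ hη]
    linarith
  have h8 : (0 : ℝ) ≤ (Nat.log 2 n : ℝ) := Nat.cast_nonneg _
  have e : 3 / η * (n : ℝ) ^ η = 3 * ((n : ℝ) ^ η / η) := by ring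
  rw [e]
  push_cast
  nlinarith

open Classical in
theorem partA_final {ε : ℝ} (hε : 0 < ε) : ∃ C : ℝ, 0 < C ∧ ∀ n : ℕ, 1 ≤ n →
    (((range n).filter (Fails n)).card : ℝ) ≤ C * (n : ℝ) ^ (1 / 2 + ε) := by
  set η := min 1 (ε / 4) with hηd
  have hη : 0 < η := lt_min one_pos (by linarith)
  have hη1 : η ≤ 1 := min_le_left _ _
  have hηε : η ≤ ε / 4 := min_le_right _ _
  obtain ⟨C, hC, hblock⟩ := blockA hη hη1
  refine ⟨3 / η * Real.sqrt C, by positivity, fun n hn => ?_⟩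
  have hn' : (1 : ℝ) ≤ n := by exact_mod_cast hn
  have hn0 : (0 : ℝ) < n := by linarith
  rcases Nat.lt_or_ge n 3 with hn3 | hn3
  · have : (range n).filter (Fails n) = ∅ := by
      rw [filter_eq_empty_iff]
      rintro m _ ⟨h1, h2, h3, _⟩
      have : m = 1 := by omega
      rw [this] at h3
      exact h3 (one_dvd _)
    rw [this, card_empty]
    push_cast
    positivity
  set s := Real.sqrt C * (n : ℝ) ^ ((1 + 5 * η) / 2) with hs
  have hone : ∀ j ∈ range (Nat.log 2 n + 1),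
      (((Ioc (2 ^ j) (2 * 2 ^ j)).filter (Fails n)).card : ℝ) ≤ s := by
    intro j hj
    have hj' : 2 ^ j ≤ n := (Nat.pow_le_pow_right (by norm_num)
      (by have := mem_range.1 hj; omega)).trans (Nat.pow_log_le_self 2 (x := n) (by omega))
    have h1 := hblock n (2 ^ j) hn3 Nat.one_le_two_pow hj'
    set c := ((Ioc (2 ^ j) (2 * 2 ^ j)).filter (Fails n)).card with hc
    have h2 : c ≤ 2 ^ j := by
      refine (card_filter_le _ _).trans ?_
      rw [Nat.card_Ioc]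
      omega
    have h3 : (c : ℝ) ≤ ((2 ^ j : ℕ) : ℝ) := by exact_mod_cast h2
    have h4 : (c : ℝ) ^ 2 ≤ C * (n : ℝ) ^ (1 + 5 * η) := by
      refine le_trans ?_ h1
      rw [sq]
      exact mul_le_mul_of_nonneg_left h3 (Nat.cast_nonneg _)
    have h5 := Real.le_sqrt_of_sq_le h4
    refine h5.trans (le_of_eq ?_)
    rw [Real.sqrt_mul hC.le, hs]
    congr 1
    rw [Real.sqrt_eq_rpow, ← Real.rpow_mul hn0.le]
    congr 1
    ring
  have hcover : (range n).filter (Fails n) ⊆ (range (Nat.log 2 n + 1)).biUnion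
      (fun j => (Ioc (2 ^ j) (2 * 2 ^ j)).filter (Fails n)) := by
    intro m hm
    rw [mem_filter, mem_range] at hm
    obtain ⟨hmn, hf⟩ := hm
    have hm2 : 2 ≤ m := by
      obtain ⟨h1, h2, h3, _⟩ := hf
      by_contra hlt
      have : m = 1 := by omega
      rw [this] at h3
      exact h3 (one_dvd _)
    rw [mem_biUnion]
    refine ⟨Nat.log 2 (m - 1), ?_, ?_⟩
    · rw [mem_range]
      have := Nat.log_mono_right (b := 2) (show m - 1 ≤ n by omega)
      omega
    · rw [mem_filter, mem_Ioc]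
      have h1 := Nat.pow_log_le_self 2 (x := m - 1) (by omega)
      have h2 := Nat.lt_pow_succ_log_self (b := 2) (by norm_num) (m - 1)
      rw [pow_succ] at h2
      exact ⟨⟨by omega, by omega⟩, hf⟩
  calc (((range n).filter (Fails n)).card : ℝ)
      ≤ (∑ j ∈ range (Nat.log 2 n + 1), ((Ioc (2 ^ j) (2 * 2 ^ j)).filter (Fails n)).card : ℕ) := by
        exact_mod_cast (card_le_card hcover).trans card_biUnion_le
    _ = ∑ j ∈ range (Nat.log 2 n + 1), (((Ioc (2 ^ j) (2 * 2 ^ j)).filter (Fails n)).card : ℝ) := by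
        push_cast
        rfl
    _ ≤ ∑ j ∈ range (Nat.log 2 n + 1), s := sum_le_sum hone
    _ = ((Nat.log 2 n + 1 : ℕ) : ℝ) * s := by rw [sum_const, card_range, nsmul_eq_mul]
    _ ≤ 3 / η * (n : ℝ) ^ η * s := by
        apply mul_le_mul_of_nonneg_right (log_blocks hη hη1 n hn)
        positivity
    _ = 3 / η * Real.sqrt C * (n : ℝ) ^ (η + (1 + 5 * η) / 2) := by
        rw [hs, Real.rpow_add hn0]
        ring
    _ ≤ 3 / η * Real.sqrt C * (n : ℝ) ^ (1 / 2 + ε) := by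
        apply mul_le_mul_of_nonneg_left _ (by positivity)
        apply Real.rpow_le_rpow_of_exponent_le hn'
        linarith

theorem blockB {η : ℝ} (hη : 0 < η) (hη1 : η ≤ 1) : ∃ C : ℝ, 0 < C ∧
    ∀ N M : ℕ, 16 ≤ N → 1 ≤ M → M < 2 * N →
      ((Box N M).card : ℝ) ≤ C * ((2 * N : ℕ) : ℝ) ^ (1 + 8 * η) := by
  obtain ⟨r, hr, hchoice⟩ := choice hη
  have hr' : (1 : ℝ) ≤ r := by exact_mod_cast hr
  have hr0 : (0 : ℝ) < r := by linarith
  obtain ⟨A, hA, hT⟩ := choiceT hη hη1 (B := 16 * (r : ℝ) ^ 2) (by positivity)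
  refine ⟨400 * 66 * 8 * A ^ 2 * (r : ℝ) ^ 4 * (160 / η), by positivity,
    fun N M hN hM hMN => ?_⟩
  obtain ⟨J, hJ, hrJ, hy⟩ := hchoice (2 * N) M hM hMN.le
  obtain ⟨T, hT1, hT2⟩ := hT (2 * N) (by omega)
  have hN' : (16 : ℝ) ≤ N := by exact_mod_cast hN
  have hM0 : (0 : ℝ) < M := by exact_mod_cast hM
  have hM1 : (1 : ℝ) ≤ M := by exact_mod_cast hM
  have hMN' : (M : ℝ) < 2 * N := by exact_mod_cast hMN
  set x := ((2 * N : ℕ) : ℝ) with hx
  have hxN : x = 2 * N := by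
    rw [hx]
    push_cast
    rfl
  have hx1 : (32 : ℝ) ≤ x := by linarith
  have hx0 : (0 : ℝ) < x := by linarith
  have hxη : (1 : ℝ) ≤ x ^ η := Real.one_le_rpow (by linarith) hη.le
  have hr2 : (1 : ℝ) ≤ (r : ℝ) ^ 2 := by nlinarith
  have h := partB (N := N) (M := M) (r := r) (J := J) (T := T) (by omega) hM hr hJ
    (by
      rw [← hxN]
      exact hrJ)
    (by
      intro w hw1 hw2
      apply hT1 w hw1
      have : (w : ℝ) ≤ r * J * (2 * M) := by exact_mod_cast hw2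
      refine this.trans ?_
      calc (r : ℝ) * J * (2 * M) = 2 * (r * J * M) := by ring
        _ ≤ 2 * (8 * (r : ℝ) ^ 2 * x ^ (1 + η)) := by linarith
        _ = _ := by ring)
    (by
      intro w hw1 hw2
      apply hT1 w hw1
      have h1 : (w : ℝ) ≤ x := by
        rw [hx]
        exact_mod_cast hw2
      refine h1.trans ?_
      rw [Real.rpow_add hx0, Real.rpow_one]
      have h2 : x ≤ x * x ^ η := le_mul_of_one_le_right hx0.le hxη
      have h3 : x * x ^ η ≤ 16 * (r : ℝ) ^ 2 * (x * x ^ η) :=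
        le_mul_of_one_le_left (by positivity) (by linarith)
      linarith)
  set c := ((Box N M).card : ℝ) with hc
  have hc0 : 0 ≤ c := Nat.cast_nonneg _
  -- the primes
  set X := N * N / (2 * M) with hX
  have hX1 : x ^ 2 / (16 * M) ≤ ((X - 1 : ℕ) : ℝ) := by
    have h1 : (N * N : ℝ) / (2 * M) - 1 ≤ X := by
      have h2 : (N * N : ℕ) < (X + 1) * (2 * M) := by
        rw [hX]
        have := Nat.lt_div_mul_add (a := N * N) (b := 2 * M) (by omega)
        calc N * N < N * N / (2 * M) * (2 * M) + 2 * M := this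
          _ = _ := by ring
      have h3 : (N * N : ℝ) < (X + 1) * (2 * M) := by exact_mod_cast h2
      have h4 : (N * N : ℝ) / (2 * M) < X + 1 := by
        rw [div_lt_iff₀ (by positivity)]
        exact h3
      linarith
    have h5 : (X : ℝ) - 1 ≤ ((X - 1 : ℕ) : ℝ) := by
      have : X ≤ (X - 1) + 1 := by omega
      have h6 : (X : ℝ) ≤ ((X - 1 : ℕ) : ℝ) + 1 := by exact_mod_cast this
      linarith
    have h6 : x ^ 2 / (16 * M) = (N * N : ℝ) / (2 * M) / 2 := by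
      rw [hxN]
      field_simp
      ring
    have h7 : (4 : ℝ) ≤ (N * N : ℝ) / (2 * M) := by
      rw [le_div_iff₀ (by positivity)]
      nlinarith
    rw [h6]
    linarith
  have hX2 : 2 ≤ X - 1 := by
    have h7 : (2 : ℝ) ≤ x ^ 2 / (16 * M) := by
      rw [le_div_iff₀ (by positivity)]
      nlinarith
    have : (2 : ℝ) ≤ ((X - 1 : ℕ) : ℝ) := h7.trans hX1
    exact_mod_cast this
  have hp : η / 160 * (x ^ (2 - 2 * η) / M) ≤
      (((Icc 1 (X - 1)).filter Nat.Prime).card : ℝ) := by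
    refine le_trans ?_ (primes_ge hη (X - 1) hX2)
    have hz0 : 0 < x ^ 2 / (16 * M) := by positivity
    have h2 : (x ^ 2 / (16 * M)) ^ (1 - η) ≤ ((X - 1 : ℕ) : ℝ) ^ (1 - η) :=
      Real.rpow_le_rpow hz0.le hX1 (by linarith)
    have h3 : x ^ (2 - 2 * η) / (16 * M) ≤ (x ^ 2 / (16 * M)) ^ (1 - η) := by
      rw [Real.rpow_sub hz0, Real.rpow_one]
      have h4 : (x ^ 2 / (16 * M)) ^ η ≤ x ^ (2 * η) := by
        have : x ^ (2 * η) = (x ^ (2 : ℝ)) ^ η := by rw [Real.rpow_mul hx0.le]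
        rw [this, Real.rpow_two]
        apply Real.rpow_le_rpow hz0.le _ hη.le
        apply div_le_self (by positivity)
        linarith
      have h5 : x ^ (2 - 2 * η) = x ^ 2 / x ^ (2 * η) := by
        rw [Real.rpow_sub hx0, Real.rpow_two]
      rw [h5]
      have e : x ^ 2 / x ^ (2 * η) / (16 * M) = x ^ 2 / (16 * M) / x ^ (2 * η) := by
        rw [div_right_comm]
      rw [e]
      exact div_le_div_of_nonneg_left hz0.le (by positivity) h4
    calc η / 160 * (x ^ (2 - 2 * η) / M) = η / 10 * (x ^ (2 - 2 * η) / (16 * M)) := by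
          field_simp
          norm_num
      _ ≤ η / 10 * ((X - 1 : ℕ) : ℝ) ^ (1 - η) :=
          mul_le_mul_of_nonneg_left (h3.trans h2) (by positivity)
  -- the right-hand side
  have hN0 : (0 : ℝ) < N := by linarith
  have hfac : 2 * ((r : ℝ) * J * (2 * M)) / N + 2 ≤ 66 * (r : ℝ) ^ 2 * x ^ η := by
    have h1 : 2 * ((r : ℝ) * J * (2 * M)) / N ≤ 64 * (r : ℝ) ^ 2 * x ^ η := by
      rw [div_le_iff₀ hN0]
      have e : x ^ (1 + η) = x * x ^ η := by rw [Real.rpow_add hx0, Real.rpow_one]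
      rw [e] at hy
      calc 2 * ((r : ℝ) * J * (2 * M)) = 4 * (r * J * M) := by ring
        _ ≤ 4 * (8 * (r : ℝ) ^ 2 * (x * x ^ η)) := by linarith
        _ = _ := by
          rw [hxN]
          ring
    nlinarith
  have hrhs : (400 * N ^ 2 * (T * (2 * (r * J * (2 * M)) / N + 2) * 2 * (2 * (r * J * T))) : ℝ) *
      M ≤ 400 * 66 * 8 * A ^ 2 * (r : ℝ) ^ 4 * x ^ (3 + 6 * η) := by
    have e1 : x ^ (3 + 6 * η) =
        x ^ (2 : ℝ) * x ^ (1 + η) * (x ^ (2 * η) * x ^ (2 * η) * x ^ η) := by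
      rw [← Real.rpow_add hx0, ← Real.rpow_add hx0, ← Real.rpow_add hx0, ← Real.rpow_add hx0]
      congr 1
      ring
    calc (400 * N ^ 2 * (T * (2 * (r * J * (2 * M)) / N + 2) * 2 * (2 * (r * J * T))) : ℝ) * M
        = 1600 * N ^ 2 * (r * J * M) * (T * T * (2 * (r * J * (2 * M)) / N + 2)) := by ring
      _ ≤ 1600 * N ^ 2 * (8 * (r : ℝ) ^ 2 * x ^ (1 + η)) *
          ((A * x ^ (2 * η)) * (A * x ^ (2 * η)) * (66 * (r : ℝ) ^ 2 * x ^ η)) := by
        gcongr
      _ = _ := by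
        rw [e1, Real.rpow_two, hxN]
        ring
  have hfin : η / 160 * (x ^ (2 - 2 * η)) * c ≤
      400 * 66 * 8 * A ^ 2 * (r : ℝ) ^ 4 * x ^ (3 + 6 * η) := by
    refine le_trans ?_ hrhs
    calc η / 160 * (x ^ (2 - 2 * η)) * c = (η / 160 * (x ^ (2 - 2 * η) / M) * c) * M := by
          field_simp
      _ ≤ ((((Icc 1 (X - 1)).filter Nat.Prime).card : ℝ) * c) * M := by gcongr
      _ ≤ _ := mul_le_mul_of_nonneg_right h hM0.le
  have hpos : 0 < η / 160 * x ^ (2 - 2 * η) := by positivity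
  have e2 : 400 * 66 * 8 * A ^ 2 * (r : ℝ) ^ 4 * x ^ (3 + 6 * η) =
      η / 160 * x ^ (2 - 2 * η) *
        (400 * 66 * 8 * A ^ 2 * (r : ℝ) ^ 4 * (160 / η) * x ^ (1 + 8 * η)) := by
    have e3 : x ^ (3 + 6 * η) = x ^ (2 - 2 * η) * x ^ (1 + 8 * η) := by
      rw [← Real.rpow_add hx0]
      congr 1
      ring
    rw [e3]
    field_simp
  rw [e2] at hfin
  exact le_of_mul_le_mul_left hfin hpos

end Pool.Agent.FK93
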