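import Pool.Agent.FK93.FinalB

/-!
# FK93-FinalC: all pairs up to `N`
-/

namespace Pool.Agent.FK93

open Finset Pool.Agent.DK10

open Classical in
/-- The reduced failing pairs up to `N`. -/
noncomputable def Red (N : ℕ) : Finset (ℕ × ℕ) :=
  ((Icc 1 N) ×ˢ (Icc 1 N)).filter (fun b => Nat.Coprime b.2 b.1 ∧ Fails b.1 b.2)

open Classical in
/-- The failing pairs up to `N`. -/
noncomputable def All (N : ℕ) : Finset (ℕ × ℕ) :=
  ((Icc 1 N) ×ˢ (Icc 1 N)).filter (fun b => Fails b.1 b.2)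

theorem mem_Red {N : ℕ} {b : ℕ × ℕ} : b ∈ Red N ↔
    (1 ≤ b.1 ∧ b.1 ≤ N) ∧ (1 ≤ b.2 ∧ b.2 ≤ N) ∧ Nat.Coprime b.2 b.1 ∧ Fails b.1 b.2 := by
  unfold Red
  simp only [mem_filter, mem_product, mem_Icc]
  tauto

theorem mem_All {N : ℕ} {b : ℕ × ℕ} : b ∈ All N ↔
    (1 ≤ b.1 ∧ b.1 ≤ N) ∧ (1 ≤ b.2 ∧ b.2 ≤ N) ∧ Fails b.1 b.2 := by
  unfold All
  simp only [mem_filter, mem_product, mem_Icc]
  tauto

theorem two_le_of_fails {n m : ℕ} (h : Fails n m) : 2 ≤ m := by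
  obtain ⟨h1, h2, h3, _⟩ := h
  by_contra hlt
  have : m = 1 := by omega
  rw [this] at h3
  exact h3 (one_dvd _)

theorem mem_dyadic {m : ℕ} (hm : 2 ≤ m) :
    2 ^ (Nat.log 2 (m - 1)) < m ∧ m ≤ 2 * 2 ^ (Nat.log 2 (m - 1)) := by
  have h1 := Nat.pow_log_le_self 2 (x := m - 1) (by omega)
  have h2 := Nat.lt_pow_succ_log_self (b := 2) (by norm_num) (m - 1)
  rw [pow_succ] at h2
  constructor <;> omega

theorem redBound {η : ℝ} (hη : 0 < η) (hη1 : η ≤ 1) : ∃ C : ℝ, 0 < C ∧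
    ∀ N : ℕ, 1 ≤ N → ((Red N).card : ℝ) ≤ C * (N : ℝ) ^ (1 + 10 * η) := by
  obtain ⟨C, hC, hblock⟩ := blockB hη hη1
  refine ⟨(3 / η) ^ 2 * ((C + 512) * 512), by positivity, fun N hN => ?_⟩
  have hN' : (1 : ℝ) ≤ N := by exact_mod_cast hN
  have hN0 : (0 : ℝ) < N := by linarith
  set D := Nat.log 2 N + 1 with hD
  set s := (C + 512) * (512 * (N : ℝ) ^ (1 + 8 * η)) with hs
  have hone : ∀ z ∈ range D ×ˢ range D, ((Box (2 ^ z.1) (2 ^ z.2)).card : ℝ) ≤ s := by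
    rintro ⟨i, j⟩ hz
    rw [mem_product, mem_range, mem_range] at hz
    obtain ⟨hi, hj⟩ := hz
    have hi' : 2 ^ i ≤ N := (Nat.pow_le_pow_right (by norm_num) (by omega)).trans
      (Nat.pow_log_le_self 2 (x := N) (by omega))
    have hpow1 : (1 : ℝ) ≤ (N : ℝ) ^ (1 + 8 * η) := Real.one_le_rpow hN' (by linarith)
    simp only
    rcases Nat.lt_or_ge (2 ^ j) (2 * 2 ^ i) with hlt | hge
    · rcases Nat.lt_or_ge (2 ^ i) 16 with h16 | h16
      · have h1 : (Box (2 ^ i) (2 ^ j)).card ≤ 512 := by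
          have hsub : Box (2 ^ i) (2 ^ j) ⊆
              (Ioc (2 ^ i) (2 * 2 ^ i)) ×ˢ (Ioc (2 ^ j) (2 * 2 ^ j)) := by
            intro b hb
            have hb' := mem_Box.1 hb
            rw [mem_product, mem_Ioc, mem_Ioc]
            exact ⟨hb'.1, hb'.2.1⟩
          refine (card_le_card hsub).trans ?_
          rw [card_product, Nat.card_Ioc, Nat.card_Ioc]
          have e1 : 2 * 2 ^ i - 2 ^ i = 2 ^ i := by omega
          have e2 : 2 * 2 ^ j - 2 ^ j = 2 ^ j := by omega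
          rw [e1, e2]
          calc 2 ^ i * 2 ^ j ≤ 15 * 32 := Nat.mul_le_mul (by omega) (by omega)
            _ ≤ 512 := by norm_num
        have h2 : ((Box (2 ^ i) (2 ^ j)).card : ℝ) ≤ 512 := by exact_mod_cast h1
        rw [hs]
        nlinarith
      · have h1 := hblock (2 ^ i) (2 ^ j) h16 Nat.one_le_two_pow hlt
        have h2 : ((2 * 2 ^ i : ℕ) : ℝ) ≤ 2 * N := by exact_mod_cast Nat.mul_le_mul_left 2 hi'
        have h3 : ((2 * 2 ^ i : ℕ) : ℝ) ^ (1 + 8 * η) ≤ 512 * (N : ℝ) ^ (1 + 8 * η) := by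
          calc ((2 * 2 ^ i : ℕ) : ℝ) ^ (1 + 8 * η) ≤ (2 * (N : ℝ)) ^ (1 + 8 * η) :=
                Real.rpow_le_rpow (Nat.cast_nonneg _) h2 (by linarith)
            _ = 2 ^ (1 + 8 * η) * (N : ℝ) ^ (1 + 8 * η) := Real.mul_rpow (by norm_num) hN0.le
            _ ≤ 512 * (N : ℝ) ^ (1 + 8 * η) := by
              apply mul_le_mul_of_nonneg_right _ (by positivity)
              calc (2 : ℝ) ^ (1 + 8 * η) ≤ 2 ^ (9 : ℝ) :=
                    Real.rpow_le_rpow_of_exponent_le (by norm_num) (by linarith)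
                _ = 512 := by norm_num
        calc ((Box (2 ^ i) (2 ^ j)).card : ℝ) ≤ C * ((2 * 2 ^ i : ℕ) : ℝ) ^ (1 + 8 * η) := h1
          _ ≤ C * (512 * (N : ℝ) ^ (1 + 8 * η)) := mul_le_mul_of_nonneg_left h3 hC.le
          _ ≤ s := by
            rw [hs]
            apply mul_le_mul_of_nonneg_right _ (by positivity)
            linarith
    · have : Box (2 ^ i) (2 ^ j) = ∅ := by
        rw [eq_empty_iff_forall_notMem]
        intro b hb
        have hb' := mem_Box.1 hb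
        have := hb'.2.2.2.2.1
        omega
      rw [this, card_empty]
      push_cast
      positivity
  have hcover : Red N ⊆ (range D ×ˢ range D).biUnion (fun z => Box (2 ^ z.1) (2 ^ z.2)) := by
    intro b hb
    have hb' := mem_Red.1 hb
    have hm2 := two_le_of_fails hb'.2.2.2
    have hn2 : 2 ≤ b.1 := by
      have := hb'.2.2.2.2.1
      omega
    rw [mem_biUnion]
    refine ⟨(Nat.log 2 (b.1 - 1), Nat.log 2 (b.2 - 1)), ?_, ?_⟩
    · rw [mem_product, mem_range, mem_range]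
      have h1 := Nat.log_mono_right (b := 2) (show b.1 - 1 ≤ N by omega)
      have h2 := Nat.log_mono_right (b := 2) (show b.2 - 1 ≤ N by omega)
      constructor <;> simp only <;> omega
    · exact mem_Box.2 ⟨mem_dyadic hn2, mem_dyadic hm2, hb'.2.2⟩
  have hDle := log_blocks hη hη1 N hN
  calc ((Red N).card : ℝ)
      ≤ (∑ z ∈ range D ×ˢ range D, (Box (2 ^ z.1) (2 ^ z.2)).card : ℕ) := by
        exact_mod_cast (card_le_card hcover).trans card_biUnion_le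
    _ = ∑ z ∈ range D ×ˢ range D, ((Box (2 ^ z.1) (2 ^ z.2)).card : ℝ) := by
        push_cast
        rfl
    _ ≤ ∑ z ∈ range D ×ˢ range D, s := sum_le_sum hone
    _ = (D : ℝ) * (D : ℝ) * s := by
        rw [sum_const, card_product, card_range, nsmul_eq_mul]
        push_cast
        ring
    _ ≤ (3 / η * (N : ℝ) ^ η) * (3 / η * (N : ℝ) ^ η) * s := by
        apply mul_le_mul_of_nonneg_right _ (by positivity)
        exact mul_le_mul hDle hDle (Nat.cast_nonneg _) (by positivity)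
    _ = (3 / η) ^ 2 * ((C + 512) * 512) * (N : ℝ) ^ (1 + 10 * η) := by
        have e : (N : ℝ) ^ (1 + 10 * η) = (N : ℝ) ^ η * (N : ℝ) ^ η * (N : ℝ) ^ (1 + 8 * η) := by
          rw [← Real.rpow_add hN0, ← Real.rpow_add hN0]
          congr 1
          ring
        rw [e, hs]
        ring

theorem fails_reduce {g n m : ℕ} (hg : 0 < g) (h : Fails (g * n) (g * m)) : Fails n m := by
  obtain ⟨h1, h2, h3, h4⟩ := h
  refine ⟨Nat.pos_of_mul_pos_left h1 , lt_of_mul_lt_mul_left h2 (Nat.zero_le _), ?_, ?_⟩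
  · intro hd
    exact h3 (mul_dvd_mul_left g hd)
  · intro k hk1 hk2 hp
    apply h4 k hk1
    · calc k < n := hk2
        _ ≤ g * n := Nat.le_mul_of_pos_left n hg
    · have : k * (g * n) / (g * m) = k * n / m := by
        rw [← mul_assoc, mul_comm k g, mul_assoc, Nat.mul_div_mul_left _ _ hg]
      rw [this]
      exact hp

theorem all_le (N : ℕ) : (All N).card ≤ ∑ g ∈ Icc 1 N, (Red (N / g)).card := by
  classical
  have hmaps : ∀ b ∈ All N, Nat.gcd b.1 b.2 ∈ Icc 1 N := by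
    intro b hb
    have hb' := mem_All.1 hb
    rw [mem_Icc]
    exact ⟨Nat.gcd_pos_of_pos_left _ (by omega), (Nat.gcd_le_left _ (by omega)).trans hb'.1.2⟩
  rw [card_eq_sum_card_fiberwise hmaps]
  apply sum_le_sum
  intro g hg
  have hg1 := (mem_Icc.1 hg).1
  apply card_le_card_of_injOn (fun b => (b.1 / g, b.2 / g))
  · intro b hb
    simp only [coe_filter, Set.mem_setOf_eq] at hb
    obtain ⟨hb1, hb2⟩ := hb
    have hb' := mem_All.1 hb1
    have hd1 : g ∣ b.1 := by rw [← hb2]; exact Nat.gcd_dvd_left _ _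
    have hd2 : g ∣ b.2 := by rw [← hb2]; exact Nat.gcd_dvd_right _ _
    simp only [mem_coe]
    rw [mem_Red]
    simp only
    have hf : Fails (b.1 / g) (b.2 / g) := by
      apply fails_reduce (g := g) (by omega)
      rw [Nat.mul_div_cancel' hd1, Nat.mul_div_cancel' hd2]
      exact hb'.2.2
    refine ⟨⟨?_, Nat.div_le_div_right hb'.1.2⟩, ⟨hf.1, Nat.div_le_div_right hb'.2.1.2⟩, ?_, hf⟩
    · exact Nat.lt_of_le_of_lt (Nat.zero_le _) hf.2.1
    · have : Nat.Coprime (b.1 / Nat.gcd b.1 b.2) (b.2 / Nat.gcd b.1 b.2) :=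
        Nat.coprime_div_gcd_div_gcd (by omega)
      rw [hb2] at this
      exact this.symm
  · intro b hb b' hb' he
    simp only [coe_filter, Set.mem_setOf_eq] at hb hb'
    have hd1 : g ∣ b.1 := by rw [← hb.2]; exact Nat.gcd_dvd_left _ _
    have hd2 : g ∣ b.2 := by rw [← hb.2]; exact Nat.gcd_dvd_right _ _
    have hd1' : g ∣ b'.1 := by rw [← hb'.2]; exact Nat.gcd_dvd_left _ _
    have hd2' : g ∣ b'.2 := by rw [← hb'.2]; exact Nat.gcd_dvd_right _ _
    simp only [Prod.mk.injEq] at he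
    apply Prod.ext
    · rw [← Nat.mul_div_cancel' hd1, he.1, Nat.mul_div_cancel' hd1']
    · rw [← Nat.mul_div_cancel' hd2, he.2, Nat.mul_div_cancel' hd2']

theorem sum_inv_le {η : ℝ} (hη : 0 < η) (hη1 : η ≤ 1) (N : ℕ) (hN : 1 ≤ N) :
    ∑ g ∈ Icc 1 N, (1 : ℝ) / g ≤ 2 / η * (N : ℝ) ^ η := by
  have hN' : (1 : ℝ) ≤ N := by exact_mod_cast hN
  have h1 := harmonic_le_one_add_log N
  have h2 : ((harmonic N : ℚ) : ℝ) = ∑ g ∈ Icc 1 N, (1 : ℝ) / g := by
    rw [harmonic_eq_sum_Icc]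
    push_cast
    simp only [one_div]
  rw [h2] at h1
  refine h1.trans ?_
  have h4 : Real.log N ≤ (N : ℝ) ^ η / η := Real.log_le_rpow_div (by linarith) hη
  have h6 : (1 : ℝ) ≤ (N : ℝ) ^ η := Real.one_le_rpow hN' hη.le
  have h7 : (1 : ℝ) ≤ (N : ℝ) ^ η / η := by
    rw [le_div_iff₀ hη]
    linarith
  have e : 2 / η * (N : ℝ) ^ η = 2 * ((N : ℝ) ^ η / η) := by ring
  rw [e]
  linarith

theorem partB_final {ε : ℝ} (hε : 0 < ε) : ∃ C : ℝ, 0 < C ∧ ∀ N : ℕ, 1 ≤ N →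
    ((All N).card : ℝ) ≤ C * (N : ℝ) ^ (1 + ε) := by
  set η := min 1 (ε / 11) with hηd
  have hη : 0 < η := lt_min one_pos (by linarith)
  have hη1 : η ≤ 1 := min_le_left _ _
  have hηε : η ≤ ε / 11 := min_le_right _ _
  obtain ⟨C, hC, hred⟩ := redBound hη hη1
  refine ⟨C * (2 / η), by positivity, fun N hN => ?_⟩
  have hN' : (1 : ℝ) ≤ N := by exact_mod_cast hN
  have hN0 : (0 : ℝ) < N := by linarith
  have hone : ∀ g ∈ Icc 1 N, ((Red (N / g)).card : ℝ) ≤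
      C * (N : ℝ) ^ (1 + 10 * η) * (1 / g) := by
    intro g hg
    obtain ⟨hg1, hg2⟩ := mem_Icc.1 hg
    have hg1' : (1 : ℝ) ≤ g := by exact_mod_cast hg1
    have hg0 : (0 : ℝ) < g := by linarith
    have h1 := hred (N / g) (Nat.div_pos hg2 (by omega))
    have h2 : ((N / g : ℕ) : ℝ) ≤ N / g := Nat.cast_div_le
    have h3 : ((N / g : ℕ) : ℝ) ^ (1 + 10 * η) ≤ (N : ℝ) ^ (1 + 10 * η) * (1 / g) := by
      calc ((N / g : ℕ) : ℝ) ^ (1 + 10 * η) ≤ ((N : ℝ) / g) ^ (1 + 10 * η) :=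
            Real.rpow_le_rpow (Nat.cast_nonneg _) h2 (by linarith)
        _ = (N : ℝ) ^ (1 + 10 * η) / (g : ℝ) ^ (1 + 10 * η) := Real.div_rpow hN0.le hg0.le _
        _ ≤ (N : ℝ) ^ (1 + 10 * η) / g := by
          apply div_le_div_of_nonneg_left (by positivity) hg0
          calc (g : ℝ) = (g : ℝ) ^ (1 : ℝ) := (Real.rpow_one _).symm
            _ ≤ _ := Real.rpow_le_rpow_of_exponent_le hg1' (by linarith)
        _ = _ := by ring
    calc ((Red (N / g)).card : ℝ) ≤ C * ((N / g : ℕ) : ℝ) ^ (1 + 10 * η) := h1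
      _ ≤ C * ((N : ℝ) ^ (1 + 10 * η) * (1 / g)) := mul_le_mul_of_nonneg_left h3 hC.le
      _ = _ := by ring
  calc ((All N).card : ℝ) ≤ ((∑ g ∈ Icc 1 N, (Red (N / g)).card : ℕ) : ℝ) := by
        exact_mod_cast all_le N
    _ = ∑ g ∈ Icc 1 N, ((Red (N / g)).card : ℝ) := by
        push_cast
        rfl
    _ ≤ ∑ g ∈ Icc 1 N, C * (N : ℝ) ^ (1 + 10 * η) * (1 / g) := sum_le_sum hone
    _ = C * (N : ℝ) ^ (1 + 10 * η) * ∑ g ∈ Icc 1 N, (1 : ℝ) / g := by rw [mul_sum]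
    _ ≤ C * (N : ℝ) ^ (1 + 10 * η) * (2 / η * (N : ℝ) ^ η) :=
        mul_le_mul_of_nonneg_left (sum_inv_le hη hη1 N hN) (by positivity)
    _ = C * (2 / η) * (N : ℝ) ^ (1 + 10 * η + η) := by
        rw [Real.rpow_add hN0 (1 + 10 * η) η]
        ring
    _ ≤ C * (2 / η) * (N : ℝ) ^ (1 + ε) := by
        apply mul_le_mul_of_nonneg_left _ (by positivity)
        apply Real.rpow_le_rpow_of_exponent_le hN'
        linarith

end Pool.Agent.FK93
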