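import Pool.Agent.FK93.FinalC

/-!
# FK93-FinalD: the bound for one `n`, weighted form
-/

namespace Pool.Agent.FK93

open Finset Pool.Agent.DK10

open Classical in
theorem partA_strong {ε : ℝ} (hε : 0 < ε) : ∃ C : ℝ, 0 < C ∧ ∀ n : ℕ, 1 ≤ n → ∀ y : ℝ, 1 ≤ y →
    (((range n).filter (fun m : ℕ => y ≤ (m : ℝ) ∧ Fails n m)).card : ℝ) ≤
      C * (n : ℝ) ^ (1 + ε) / y := by
  set η := min 1 (ε / 6) with hηd
  have hη : 0 < η := lt_min one_pos (by linarith)
  have hη1 : η ≤ 1 := min_le_left _ _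
  have hηε : η ≤ ε / 6 := min_le_right _ _
  obtain ⟨C, hC, hblock⟩ := blockA hη hη1
  refine ⟨6 / η * C, by positivity, fun n hn y hy => ?_⟩
  have hn' : (1 : ℝ) ≤ n := by exact_mod_cast hn
  have hn0 : (0 : ℝ) < n := by linarith
  have hy0 : (0 : ℝ) < y := by linarith
  rcases Nat.lt_or_ge n 3 with hn3 | hn3
  · have : (range n).filter (fun m : ℕ => y ≤ (m : ℝ) ∧ Fails n m) = ∅ := by
      rw [filter_eq_empty_iff]
      rintro m _ ⟨_, hf⟩
      have := two_le_of_fails hf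
      have := hf.2.1
      omega
    rw [this, card_empty]
    push_cast
    positivity
  set s := 2 * C * (n : ℝ) ^ (1 + 5 * η) / y with hs
  have hone : ∀ j ∈ range (Nat.log 2 n + 1),
      (((Ioc (2 ^ j) (2 * 2 ^ j)).filter (fun m : ℕ => y ≤ (m : ℝ) ∧ Fails n m)).card : ℝ) ≤ s := by
    intro j hj
    have hj' : 2 ^ j ≤ n := (Nat.pow_le_pow_right (by norm_num)
      (by have := mem_range.1 hj; omega)).trans (Nat.pow_log_le_self 2 (x := n) (by omega))
    rcases Finset.eq_empty_or_nonempty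
      ((Ioc (2 ^ j) (2 * 2 ^ j)).filter (fun m : ℕ => y ≤ (m : ℝ) ∧ Fails n m)) with he | ⟨m0, hm0⟩
    · rw [he, card_empty]
      push_cast
      positivity
    rw [mem_filter, mem_Ioc] at hm0
    have h1 := hblock n (2 ^ j) hn3 Nat.one_le_two_pow hj'
    have h2 : ((Ioc (2 ^ j) (2 * 2 ^ j)).filter (fun m : ℕ => y ≤ (m : ℝ) ∧ Fails n m)).card ≤
        ((Ioc (2 ^ j) (2 * 2 ^ j)).filter (Fails n)).card := by
      apply card_le_card
      intro m hm
      rw [mem_filter] at hm ⊢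
      exact ⟨hm.1, hm.2.2⟩
    have h3 : y ≤ 2 * ((2 ^ j : ℕ) : ℝ) := by
      have : (m0 : ℝ) ≤ ((2 * 2 ^ j : ℕ) : ℝ) := by exact_mod_cast hm0.1.2
      push_cast at this ⊢
      linarith [hm0.2.1]
    have h4 : (((Ioc (2 ^ j) (2 * 2 ^ j)).filter
        (fun m : ℕ => y ≤ (m : ℝ) ∧ Fails n m)).card : ℝ) ≤
        (((Ioc (2 ^ j) (2 * 2 ^ j)).filter (Fails n)).card : ℝ) := by exact_mod_cast h2
    rw [hs, le_div_iff₀ hy0]
    set c := (((Ioc (2 ^ j) (2 * 2 ^ j)).filter (Fails n)).card : ℝ)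
    have hc0 : 0 ≤ c := Nat.cast_nonneg _
    calc _ ≤ c * y := mul_le_mul_of_nonneg_right h4 hy0.le
      _ ≤ c * (2 * ((2 ^ j : ℕ) : ℝ)) := mul_le_mul_of_nonneg_left h3 hc0
      _ = 2 * (c * ((2 ^ j : ℕ) : ℝ)) := by ring
      _ ≤ 2 * (C * (n : ℝ) ^ (1 + 5 * η)) := by linarith
      _ = _ := by ring
  have hcover : (range n).filter (fun m : ℕ => y ≤ (m : ℝ) ∧ Fails n m) ⊆
      (range (Nat.log 2 n + 1)).biUnion
        (fun j => (Ioc (2 ^ j) (2 * 2 ^ j)).filter (fun m : ℕ => y ≤ (m : ℝ) ∧ Fails n m)) := by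
    intro m hm
    rw [mem_filter, mem_range] at hm
    obtain ⟨hmn, hyf⟩ := hm
    have hm2 := two_le_of_fails hyf.2
    rw [mem_biUnion]
    refine ⟨Nat.log 2 (m - 1), ?_, ?_⟩
    · rw [mem_range]
      have := Nat.log_mono_right (b := 2) (show m - 1 ≤ n by omega)
      omega
    · rw [mem_filter, mem_Ioc]
      exact ⟨mem_dyadic hm2, hyf⟩
  calc (((range n).filter (fun m : ℕ => y ≤ (m : ℝ) ∧ Fails n m)).card : ℝ)
      ≤ (∑ j ∈ range (Nat.log 2 n + 1),
          ((Ioc (2 ^ j) (2 * 2 ^ j)).filter (fun m : ℕ => y ≤ (m : ℝ) ∧ Fails n m)).card : ℕ) := by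
        exact_mod_cast (card_le_card hcover).trans card_biUnion_le
    _ = ∑ j ∈ range (Nat.log 2 n + 1),
          (((Ioc (2 ^ j) (2 * 2 ^ j)).filter (fun m : ℕ => y ≤ (m : ℝ) ∧ Fails n m)).card : ℝ) := by
        push_cast
        rfl
    _ ≤ ∑ j ∈ range (Nat.log 2 n + 1), s := sum_le_sum hone
    _ = ((Nat.log 2 n + 1 : ℕ) : ℝ) * s := by rw [sum_const, card_range, nsmul_eq_mul]
    _ ≤ 3 / η * (n : ℝ) ^ η * s := by
        apply mul_le_mul_of_nonneg_right (log_blocks hη hη1 n hn)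
        positivity
    _ = 6 / η * C * (n : ℝ) ^ (η + (1 + 5 * η)) / y := by
        rw [hs, Real.rpow_add hn0 η (1 + 5 * η)]
        ring
    _ ≤ 6 / η * C * (n : ℝ) ^ (1 + ε) / y := by
        apply div_le_div_of_nonneg_right _ hy0.le
        apply mul_le_mul_of_nonneg_left _ (by positivity)
        apply Real.rpow_le_rpow_of_exponent_le hn'
        linarith

end Pool.Agent.FK93
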