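import Pool.Agent.DK10.Fejer
import Pool.Agent.DK10.DDBound

/-!
# FK93-Kernel: the powers of the Fejér kernel

`‖D_J(y)‖^(2r) = ∑_h c_h e(hy)` with `0 ≤ c_h ≤ c_0` and `c_0 ≥ J^(2r) / (rJ)`.
-/

namespace Pool.Agent.FK93

open Finset Pool.Agent.DK10 Polynomial

/-- The coefficients of `(1 + X + ... + X^(J-1))^r`. -/
noncomputable def nu (r J u : ℕ) : ℝ := ((((∑ a ∈ range J, (X : ℕ[X]) ^ a) ^ r).coeff u : ℕ) : ℝ)

theorem nu_nonneg (r J u : ℕ) : 0 ≤ nu r J u := Nat.cast_nonneg _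

theorem natDegree_lt {r J : ℕ} (hr : 1 ≤ r) (hJ : 1 ≤ J) :
    ((∑ a ∈ range J, (X : ℕ[X]) ^ a) ^ r).natDegree < r * J := by
  have h1 : (∑ a ∈ range J, (X : ℕ[X]) ^ a).natDegree ≤ J - 1 := by
    apply natDegree_sum_le_of_forall_le
    intro a ha
    rw [natDegree_X_pow]
    have := mem_range.1 ha
    omega
  calc ((∑ a ∈ range J, (X : ℕ[X]) ^ a) ^ r).natDegree
      ≤ r * (∑ a ∈ range J, (X : ℕ[X]) ^ a).natDegree := natDegree_pow_le
    _ ≤ r * (J - 1) := Nat.mul_le_mul_left _ h1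
    _ < r * J := by
      apply Nat.mul_lt_mul_of_pos_left <;> omega

theorem sum_nu {r J : ℕ} (hr : 1 ≤ r) (hJ : 1 ≤ J) (z : ℂ) :
    (∑ a ∈ range J, z ^ a) ^ r = ∑ u ∈ range (r * J), (nu r J u : ℂ) * z ^ u := by
  have h := eval₂_eq_sum_range' (Nat.castRingHom ℂ) (natDegree_lt hr hJ) z
  have h2 : eval₂ (Nat.castRingHom ℂ) z ((∑ a ∈ range J, (X : ℕ[X]) ^ a) ^ r) =
      (∑ a ∈ range J, z ^ a) ^ r := by
    rw [eval₂_pow, eval₂_finset_sum]
    simp [eval₂_X_pow]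
  rw [← h2, h]
  refine sum_congr rfl fun u _ => ?_
  simp [nu]

theorem sum_nu_one {r J : ℕ} (hr : 1 ≤ r) (hJ : 1 ≤ J) :
    ∑ u ∈ range (r * J), nu r J u = (J : ℝ) ^ r := by
  have h := sum_nu hr hJ 1
  simp only [one_pow, sum_const, card_range, nsmul_eq_mul, mul_one] at h
  have h2 : ((∑ u ∈ range (r * J), nu r J u : ℝ) : ℂ) = (((J : ℝ) ^ r : ℝ) : ℂ) := by
    push_cast
    exact h.symm
  exact_mod_cast h2

/-- The Fourier coefficients. -/
noncomputable def cc (r J : ℕ) (h : ℤ) : ℝ :=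
  ∑ u ∈ range (r * J), ∑ v ∈ range (r * J), if (u : ℤ) - v = h then nu r J u * nu r J v else 0

theorem cc_nonneg (r J : ℕ) (h : ℤ) : 0 ≤ cc r J h := by
  unfold cc
  refine sum_nonneg fun u _ => sum_nonneg fun v _ => ?_
  split_ifs
  · exact mul_nonneg (nu_nonneg _ _ _) (nu_nonneg _ _ _)
  · exact le_rfl

theorem cc_zero (r J : ℕ) : cc r J 0 = ∑ u ∈ range (r * J), nu r J u ^ 2 := by
  unfold cc
  refine sum_congr rfl fun u hu => ?_
  rw [sum_eq_single u]
  · simp [sq]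
  · intro v _ hv
    rw [if_neg]
    omega
  · intro h
    exact absurd hu h

theorem cc_le (r J : ℕ) (h : ℤ) : cc r J h ≤ cc r J 0 := by
  rw [cc_zero]
  have h1 : cc r J h ≤ ∑ u ∈ range (r * J), ∑ v ∈ range (r * J),
      ((if (u : ℤ) - v = h then nu r J u ^ 2 / 2 else 0) +
        (if (u : ℤ) - v = h then nu r J v ^ 2 / 2 else 0)) := by
    unfold cc
    refine sum_le_sum fun u _ => sum_le_sum fun v _ => ?_
    split_ifs
    · nlinarith [sq_nonneg (nu r J u - nu r J v)]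
    · simp
  have h2 : ∑ u ∈ range (r * J), ∑ v ∈ range (r * J),
      (if (u : ℤ) - v = h then nu r J u ^ 2 / 2 else 0) ≤
      ∑ u ∈ range (r * J), nu r J u ^ 2 / 2 := by
    refine sum_le_sum fun u _ => ?_
    rw [← sum_filter, sum_const, nsmul_eq_mul]
    have hc : ((range (r * J)).filter (fun v : ℕ => (u : ℤ) - v = h)).card ≤ 1 := by
      rw [card_le_one]
      intro a ha b hb
      have := (mem_filter.1 ha).2
      have := (mem_filter.1 hb).2
      omega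
    have hc' : (((range (r * J)).filter (fun v : ℕ => (u : ℤ) - v = h)).card : ℝ) ≤ 1 := by
      exact_mod_cast hc
    have : 0 ≤ nu r J u ^ 2 / 2 := by positivity
    nlinarith
  have h3 : ∑ u ∈ range (r * J), ∑ v ∈ range (r * J),
      (if (u : ℤ) - v = h then nu r J v ^ 2 / 2 else 0) ≤
      ∑ u ∈ range (r * J), nu r J u ^ 2 / 2 := by
    rw [sum_comm]
    refine sum_le_sum fun u _ => ?_
    rw [← sum_filter, sum_const, nsmul_eq_mul]
    have hc : ((range (r * J)).filter (fun v : ℕ => (v : ℤ) - u = h)).card ≤ 1 := by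
      rw [card_le_one]
      intro a ha b hb
      have := (mem_filter.1 ha).2
      have := (mem_filter.1 hb).2
      omega
    have hc' : (((range (r * J)).filter (fun v : ℕ => (v : ℤ) - u = h)).card : ℝ) ≤ 1 := by
      exact_mod_cast hc
    have : 0 ≤ nu r J u ^ 2 / 2 := by positivity
    nlinarith
  have h4 : ∑ u ∈ range (r * J), nu r J u ^ 2 =
      ∑ u ∈ range (r * J), nu r J u ^ 2 / 2 + ∑ u ∈ range (r * J), nu r J u ^ 2 / 2 := by
    rw [← sum_add_distrib]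
    refine sum_congr rfl fun u _ => ?_
    ring
  simp only [sum_add_distrib] at h1
  linarith

theorem cc_zero_ge {r J : ℕ} (hr : 1 ≤ r) (hJ : 1 ≤ J) :
    (J : ℝ) ^ (2 * r) ≤ (r * J : ℝ) * cc r J 0 := by
  rw [cc_zero]
  have h := sq_sum_le_card_mul_sum_sq (s := range (r * J)) (f := fun u => nu r J u)
  rw [sum_nu_one hr hJ, card_range] at h
  push_cast at h
  rw [mul_comm 2 r, pow_mul]
  exact h

theorem ee_nat_mul' (m : ℕ) (y : ℝ) : ee ((m : ℝ) * y) = ee y ^ m := by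
  unfold ee
  rw [← Complex.exp_nat_mul]
  congr 1
  push_cast
  ring

theorem kernel_eq {r J : ℕ} (hr : 1 ≤ r) (hJ : 1 ≤ J) (y : ℝ) :
    ((‖DD J y‖ ^ (2 * r) : ℝ) : ℂ) =
      ∑ h ∈ Icc (-(r * J : ℤ)) (r * J : ℤ), (cc r J h : ℂ) * ee ((h : ℝ) * y) := by
  have h1 : (DD J y) ^ r = ∑ u ∈ range (r * J), (nu r J u : ℂ) * ee ((u : ℝ) * y) := by
    have := sum_nu hr hJ (ee y)
    unfold DD
    simp only [ee_nat_mul']
    exact this
  have h2 : ((‖DD J y‖ ^ (2 * r) : ℝ) : ℂ) = (DD J y) ^ r * (starRingEnd ℂ) ((DD J y) ^ r) := by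
    rw [Complex.mul_conj, Complex.normSq_eq_norm_sq, norm_pow, ← pow_mul, mul_comm 2 r]
  rw [h2, h1, map_sum, sum_mul_sum]
  have h3 : ∀ u ∈ range (r * J), ∀ v ∈ range (r * J),
      (nu r J u : ℂ) * ee ((u : ℝ) * y) * (starRingEnd ℂ) ((nu r J v : ℂ) * ee ((v : ℝ) * y)) =
      ∑ h ∈ Icc (-(r * J : ℤ)) (r * J : ℤ),
        (if (u : ℤ) - v = h then ((nu r J u : ℂ) * (nu r J v : ℂ)) * ee ((h : ℝ) * y) else 0) := by
    intro u hu v hv
    rw [sum_ite_eq, if_pos]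
    · rw [map_mul, Complex.conj_ofReal, ee_conj]
      have e : ee ((((u : ℤ) - v : ℤ) : ℝ) * y) = ee ((u : ℝ) * y) * ee (-((v : ℝ) * y)) := by
        rw [← ee_add]
        congr 1
        push_cast
        ring
      rw [e]
      ring
    · have hu' := mem_range.1 hu
      have hv' := mem_range.1 hv
      have hu2 : (u : ℤ) < (r : ℤ) * J := by exact_mod_cast hu'
      have hv2 : (v : ℤ) < (r : ℤ) * J := by exact_mod_cast hv'
      rw [mem_Icc]
      constructor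
      · linarith [Int.natCast_nonneg u]
      · linarith [Int.natCast_nonneg v]
  rw [sum_congr rfl fun u hu => sum_congr rfl fun v hv => h3 u hu v hv]
  rw [sum_congr rfl fun u _ => sum_comm]
  rw [sum_comm]
  refine sum_congr rfl fun h _ => ?_
  unfold cc
  push_cast
  rw [sum_mul]
  refine sum_congr rfl fun u _ => ?_
  rw [sum_mul]
  refine sum_congr rfl fun v _ => ?_
  split_ifs <;> simp

end Pool.Agent.FK93
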