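import Pool.Agent.FK93.Count

/-!
# FK93-PartA: the inequality for one `n`
-/

namespace Pool.Agent.FK93

open Finset Pool.Agent.DK10

theorem mem_Hs {r J : ℕ} {h : ℤ} : h ∈ Hs r J ↔ h ≠ 0 ∧ h.natAbs ≤ r * J := by
  unfold Hs
  rw [mem_erase, mem_Icc]
  have e : ((r : ℤ) * J) = ((r * J : ℕ) : ℤ) := by push_cast; rfl
  rw [e]
  constructor
  · rintro ⟨h1, h2, h3⟩
    exact ⟨h1, by omega⟩
  · rintro ⟨h1, h2⟩
    exact ⟨h1, by omega, by omega⟩

open Classical in
theorem partA {n M r J T : ℕ} (hn : 1 ≤ n) (hM : 1 ≤ M) (hr : 1 ≤ r) (hJ : 1 ≤ J)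
    (hrJ : 2 * ((r : ℝ) * J) ≤ ((J : ℝ) * M / n) ^ (2 * r))
    (hT : ∀ w : ℕ, 1 ≤ w → w ≤ r * J * (2 * M) → w.divisors.card ≤ T) :
    (((Icc 1 (n - 1)).filter Nat.Prime).card : ℝ) * ((Ioc M (2 * M)).filter (Fails n)).card ≤
      160 * n * (2 * (r * J) * (T * (2 * (r * J * (2 * M)) / n + 2))) := by
  set B := (Ioc M (2 * M)).filter (Fails n) with hB
  have hn' : (0 : ℝ) < n := by exact_mod_cast hn
  have hM' : (0 : ℝ) < M := by exact_mod_cast hM
  have hcore := core B ((Icc 1 (n - 1)).filter Nat.Prime) n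
    (by
      intro p hp
      have := mem_Icc.1 (mem_filter.1 hp).1
      omega)
    (fun m : ℕ => (m : ℝ) / n) (δ := (M : ℝ) / (2 * n)) (δ0 := 1 / (n : ℝ))
    (by positivity) (by positivity) hr hJ
    (by
      have : 2 * (J : ℝ) * ((M : ℝ) / (2 * n)) = (J : ℝ) * M / n := by field_simp
      rw [this]
      exact hrJ)
    (by
      intro m hm p hp k
      have hm1 := mem_Ioc.1 (mem_filter.1 hm).1
      have hm2 := (mem_filter.1 hm).2
      have hp1 := mem_Icc.1 (mem_filter.1 hp).1
      refine avoid hm2 ?_ (mem_filter.1 hp).2 ?_ k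
      · have : 2 * ((M : ℝ) / (2 * n)) * n = M := by field_simp
        rw [this]
        exact_mod_cast hm1.1.le
      · exact Nat.mul_le_mul (by omega) hm2.2.1.le)
    (by
      intro m _ m' _ h h'
      by_cases hd : (n : ℤ) ∣ h * m - h' * m'
      · left
        obtain ⟨k, hk⟩ := hd
        refine ⟨k, ?_⟩
        have hk' : (h : ℝ) * m - h' * m' = n * k := by exact_mod_cast hk
        have : (h : ℝ) * ((m : ℝ) / n) - h' * ((m' : ℝ) / n) = ((h : ℝ) * m - h' * m') / n := by ring
        rw [this, hk']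
        field_simp
      · right
        intro k
        have e : (h : ℝ) * ((m : ℝ) / n) - h' * ((m' : ℝ) / n) - k =
            ((h * m - h' * m' - n * k : ℤ) : ℝ) / n := by
          push_cast
          field_simp
        rw [e, abs_div, abs_of_pos hn']
        apply div_le_div_of_nonneg_right _ hn'.le
        have h0 : (h * m - h' * m' - n * k : ℤ) ≠ 0 := by
          intro h0
          exact hd ⟨k, by linarith⟩
        have := Int.one_le_abs h0
        exact_mod_cast this)
    (μ := 2 * (r * J) * (T * (2 * (r * J * (2 * M)) / n + 2)))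
    (by positivity)
    (by
      intro m hm
      have hm1 := mem_Ioc.1 (mem_filter.1 hm).1
      have hone : ∀ h ∈ Hs r J, (((B ×ˢ Hs r J).filter
          (fun z : ℕ × ℤ => ∃ k : ℤ, (h : ℝ) * ((m : ℝ) / n) - (z.2 : ℝ) * ((z.1 : ℝ) / n) = k)).card : ℝ) ≤
          T * (2 * (r * J * (2 * M)) / n + 2) := by
        intro h _
        set W := r * J * (2 * M) with hW
        set S := ((Icc (-(W : ℤ)) W).filter (fun w => (n : ℤ) ∣ w - h * m)).erase 0 with hS
        have c1 : ((B ×ˢ Hs r J).filter
          (fun z : ℕ × ℤ => ∃ k : ℤ, (h : ℝ) * ((m : ℝ) / n) - (z.2 : ℝ) * ((z.1 : ℝ) / n) = k)).card ≤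
            ((B ×ˢ Hs r J).filter (fun z => z.2 * (z.1 : ℤ) ∈ S)).card := by
          apply card_le_card
          intro z hz
          rw [mem_filter] at hz ⊢
          obtain ⟨hz1, k, hk⟩ := hz
          refine ⟨hz1, ?_⟩
          rw [mem_product] at hz1
          have hz2 := mem_Hs.1 hz1.2
          have hz3 := mem_Ioc.1 (mem_filter.1 hz1.1).1
          have hprod : (z.2 * (z.1 : ℤ)).natAbs ≤ W := by
            rw [Int.natAbs_mul, Int.natAbs_natCast]
            exact Nat.mul_le_mul hz2.2 hz3.2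
          have hne : z.2 * (z.1 : ℤ) ≠ 0 := by
            apply mul_ne_zero hz2.1
            have : 0 < z.1 := by omega
            exact_mod_cast this.ne'
          rw [hS, mem_erase, mem_filter, mem_Icc]
          refine ⟨hne, ⟨by omega, by omega⟩, ?_⟩
          refine ⟨-k, ?_⟩
          have hk' : (h : ℝ) * m - z.2 * z.1 = n * k := by
            have : (h : ℝ) * ((m : ℝ) / n) - (z.2 : ℝ) * ((z.1 : ℝ) / n) =
              ((h : ℝ) * m - z.2 * z.1) / n := by ring
            rw [this, div_eq_iff hn'.ne'] at hk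
            linarith
          have hk2 : h * m - z.2 * z.1 = n * k := by exact_mod_cast hk'
          linarith
        have c2 := card_mul B (Hs r J) W T S (by
          intro w hw
          rw [hS, mem_erase, mem_filter, mem_Icc] at hw
          exact ⟨hw.1, by omega⟩) hT
        have c3 : ((S.card : ℕ) : ℝ) ≤ 2 * W / n + 2 := by
          refine le_trans ?_ (card_res W n hn (h * m))
          exact_mod_cast card_erase_le
        have c4 : (((B ×ˢ Hs r J).filter
          (fun z : ℕ × ℤ => ∃ k : ℤ, (h : ℝ) * ((m : ℝ) / n) - (z.2 : ℝ) * ((z.1 : ℝ) / n) = k)).card : ℝ) ≤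
            T * S.card := by exact_mod_cast c1.trans c2
        refine c4.trans ?_
        have : (W : ℝ) = r * J * (2 * M) := by
          rw [hW]
          push_cast
          ring
        rw [this] at c3
        exact mul_le_mul_of_nonneg_left c3 (Nat.cast_nonneg _)
      refine (sum_le_sum hone).trans (le_of_eq ?_)
      rw [sum_const, nsmul_eq_mul, card_Hs])
  refine hcore.trans ?_
  have e : 80 * ((n : ℝ) + 1 / (1 / (n : ℝ))) = 160 * n := by
    rw [one_div_one_div]
    ring
  rw [e]

end Pool.Agent.FK93
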