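import Pool.Agent.FK93.PartA

/-!
# FK93-PartB: the inequality on average over `n`
-/

namespace Pool.Agent.FK93

open Finset Pool.Agent.DK10

theorem card_res_nat (W n : ℕ) (hn : 1 ≤ n) (a : ℤ) :
    ((Icc (-(W : ℤ)) W).filter (fun w => (n : ℤ) ∣ w - a)).card ≤ 2 * W / n + 2 := by
  have h := card_res W n hn a
  have hn' : (0 : ℝ) < n := by exact_mod_cast hn
  generalize ((Icc (-(W : ℤ)) W).filter (fun w => (n : ℤ) ∣ w - a)).card = c at h ⊢
  rcases Nat.lt_or_ge c 2 with hc | hc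
  · exact le_trans (by omega) (Nat.le_add_left 2 _)
  · obtain ⟨d, rfl⟩ : ∃ d, c = d + 2 := ⟨c - 2, by omega⟩
    push_cast at h
    have h1 : (d : ℝ) ≤ 2 * W / n := by linarith
    rw [le_div_iff₀ hn'] at h1
    have h2 : d * n ≤ 2 * W := by exact_mod_cast h1
    have h3 : d ≤ 2 * W / n := (Nat.le_div_iff_mul_le (by omega)).2 h2
    exact Nat.add_le_add_right h3 2

theorem sum_gcd_le (K n : ℕ) (hn : 1 ≤ n) :
    ∑ j ∈ Icc 1 K, Nat.gcd j n ≤ K * n.divisors.card := by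
  have h1 : ∀ j ∈ Icc 1 K, Nat.gcd j n ≤ ∑ e ∈ n.divisors, if e ∣ j then e else 0 := by
    intro j hj
    have hmem : Nat.gcd j n ∈ n.divisors := by
      rw [Nat.mem_divisors]
      exact ⟨Nat.gcd_dvd_right _ _, by omega⟩
    calc Nat.gcd j n = if Nat.gcd j n ∣ j then Nat.gcd j n else 0 := by
          rw [if_pos (Nat.gcd_dvd_left _ _)]
      _ ≤ _ := single_le_sum (f := fun e => if e ∣ j then e else 0) (fun _ _ => Nat.zero_le _) hmem
  refine (sum_le_sum h1).trans ?_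
  rw [sum_comm]
  have h2 : ∀ e ∈ n.divisors, ∑ j ∈ Icc 1 K, (if e ∣ j then e else 0) ≤ K := by
    intro e _
    rw [← sum_filter, sum_const, smul_eq_mul]
    have : (Icc 1 K).filter (fun j => e ∣ j) = (Ioc 0 K).filter (fun j => e ∣ j) := by
      ext j
      simp only [mem_filter, mem_Icc, mem_Ioc]
      constructor <;> rintro ⟨h1, h2⟩ <;> exact ⟨by omega, h2⟩
    rw [this, Nat.Ioc_filter_dvd_card_eq_div]
    exact Nat.div_mul_le_self K e
  refine (sum_le_sum h2).trans ?_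
  rw [sum_const, smul_eq_mul, mul_comm]

theorem sum_Hs_gcd (r J n : ℕ) (hn : 1 ≤ n) :
    ∑ h ∈ Hs r J, Nat.gcd h.natAbs n ≤ 2 * (r * J * n.divisors.card) := by
  have hmaps : ∀ h ∈ Hs r J, h.natAbs ∈ Icc 1 (r * J) := by
    intro h hh
    have := mem_Hs.1 hh
    rw [mem_Icc]
    exact ⟨Int.natAbs_pos.2 this.1, this.2⟩
  rw [← sum_fiberwise_of_maps_to hmaps]
  have h1 : ∀ j ∈ Icc 1 (r * J), ∑ h ∈ (Hs r J).filter (fun h => h.natAbs = j),
      Nat.gcd h.natAbs n ≤ 2 * Nat.gcd j n := by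
    intro j _
    have e : ∑ h ∈ (Hs r J).filter (fun h => h.natAbs = j), Nat.gcd h.natAbs n =
        ∑ h ∈ (Hs r J).filter (fun h => h.natAbs = j), Nat.gcd j n := by
      refine sum_congr rfl fun h hh => ?_
      rw [(mem_filter.1 hh).2]
    rw [e, sum_const, smul_eq_mul]
    apply Nat.mul_le_mul_right
    have : (Hs r J).filter (fun h => h.natAbs = j) ⊆ {(j : ℤ), -(j : ℤ)} := by
      intro h hh
      have := (mem_filter.1 hh).2
      rw [mem_insert, mem_singleton]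
      omega
    exact (card_le_card this).trans card_le_two
  refine (sum_le_sum h1).trans ?_
  rw [← mul_sum]
  exact Nat.mul_le_mul_left _ (sum_gcd_le _ _ hn)

open Classical in
/-- The reduced failing pairs in a dyadic box. -/
noncomputable def Box (N M : ℕ) : Finset (ℕ × ℕ) :=
  ((Ioc N (2 * N)) ×ˢ (Ioc M (2 * M))).filter (fun b => Nat.Coprime b.2 b.1 ∧ Fails b.1 b.2)

theorem mem_Box {N M : ℕ} {b : ℕ × ℕ} : b ∈ Box N M ↔
    (N < b.1 ∧ b.1 ≤ 2 * N) ∧ (M < b.2 ∧ b.2 ≤ 2 * M) ∧ Nat.Coprime b.2 b.1 ∧ Fails b.1 b.2 := by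
  unfold Box
  simp only [mem_filter, mem_product, mem_Ioc]
  tauto

/-- The coincidence relation in integers. -/
theorem coinc {n m n' m' : ℕ} (hn : 1 ≤ n) (hn' : 1 ≤ n') {h h' k : ℤ}
    (hk : (h : ℝ) * ((m : ℝ) / n) - (h' : ℝ) * ((m' : ℝ) / n') = k) :
    h * m * n' - h' * m' * n = k * n * n' := by
  have h1 : (0 : ℝ) < n := by exact_mod_cast hn
  have h2 : (0 : ℝ) < n' := by exact_mod_cast hn'
  have h3 : (h : ℝ) * m * n' - h' * m' * n = k * n * n' := by
    rw [← hk]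
    field_simp
  exact_mod_cast h3

open Classical in
theorem fib {N M r J T n m : ℕ} (hn : N < n) (hcop : Nat.Coprime m n) (hN : 1 ≤ N)
    (hT : ∀ w : ℕ, 1 ≤ w → w ≤ r * J * (2 * M) → w.divisors.card ≤ T) (h : ℤ) (hh : h ≠ 0) :
    ((Box N M ×ˢ Hs r J).filter (fun z : (ℕ × ℕ) × ℤ =>
      ∃ k : ℤ, (h : ℝ) * ((m : ℝ) / n) - (z.2 : ℝ) * ((z.1.2 : ℝ) / z.1.1) = k)).card ≤
      (T * (2 * (r * J * (2 * M)) / N + 2)) * (2 * Nat.gcd h.natAbs n) := by
  set W := r * J * (2 * M) with hW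
  set g := Nat.gcd h.natAbs n with hg
  have hgpos : 0 < g := Nat.gcd_pos_of_pos_right _ (by omega)
  obtain ⟨d, hd⟩ : g ∣ n := Nat.gcd_dvd_right _ _
  have hdpos : 0 < d := by
    rcases Nat.eq_zero_or_pos d with h0 | h0
    · rw [h0, mul_zero] at hd
      omega
    · exact h0
  set t := (Ioc 0 (2 * N)).filter (fun x => d ∣ x) with ht
  have hmaps : ∀ z ∈ (Box N M ×ˢ Hs r J).filter (fun z : (ℕ × ℕ) × ℤ =>
      ∃ k : ℤ, (h : ℝ) * ((m : ℝ) / n) - (z.2 : ℝ) * ((z.1.2 : ℝ) / z.1.1) = k),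
      z.1.1 ∈ t := by
    intro z hz
    rw [mem_filter, mem_product] at hz
    obtain ⟨⟨hz1, _⟩, k, hk⟩ := hz
    have hb := mem_Box.1 hz1
    have hc := coinc (by omega) (by omega) hk
    rw [ht, mem_filter, mem_Ioc]
    refine ⟨⟨by omega, hb.1.2⟩, ?_⟩
    have h1 : (n : ℤ) ∣ h * m * z.1.1 := ⟨z.2 * z.1.2 + k * z.1.1, by linarith⟩
    have h2 : n ∣ h.natAbs * m * z.1.1 := by
      have := Int.natCast_dvd.1 h1
      rw [Int.natAbs_mul, Int.natAbs_mul, Int.natAbs_natCast, Int.natAbs_natCast] at this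
      exact this
    have h3 : n ∣ h.natAbs * z.1.1 := by
      have e : h.natAbs * m * z.1.1 = m * (h.natAbs * z.1.1) := by ring
      rw [e] at h2
      exact hcop.symm.dvd_of_dvd_mul_left h2
    obtain ⟨h0, hh0⟩ : g ∣ h.natAbs := Nat.gcd_dvd_left _ _
    have h4 : g * d ∣ g * (h0 * z.1.1) := by
      rw [← hd, ← mul_assoc, ← hh0]
      exact h3
    have h5 : d ∣ h0 * z.1.1 := Nat.dvd_of_mul_dvd_mul_left hgpos h4
    have hcop2 : Nat.Coprime d h0 := by
      have e1 : Nat.gcd (g * h0) (g * d) = g := by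
        rw [← hh0, ← hd]
      rw [Nat.gcd_mul_left] at e1
      have e2 : Nat.gcd h0 d = 1 := by
        have : g * Nat.gcd h0 d = g * 1 := by rw [e1, mul_one]
        exact Nat.eq_of_mul_eq_mul_left hgpos this
      rw [Nat.gcd_comm] at e2
      exact e2
    exact hcop2.dvd_of_dvd_mul_left h5
  have hcardt : t.card ≤ 2 * g := by
    rw [ht, Nat.Ioc_filter_dvd_card_eq_div]
    have : 2 * N / d < 2 * g + 1 := by
      rw [Nat.div_lt_iff_lt_mul hdpos]
      have : 2 * N < 2 * (g * d) := by omega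
      nlinarith
    omega
  refine le_trans (card_le_mul_card_image_of_maps_to hmaps
    (T * (2 * W / N + 2)) ?_) (Nat.mul_le_mul_left _ hcardt)
  intro n' _
  -- the fibre over n'
  rcases Finset.eq_empty_or_nonempty (((Box N M ×ˢ Hs r J).filter (fun z : (ℕ × ℕ) × ℤ =>
      ∃ k : ℤ, (h : ℝ) * ((m : ℝ) / n) - (z.2 : ℝ) * ((z.1.2 : ℝ) / z.1.1) = k)).filter
        (fun z => z.1.1 = n')) with he | ⟨z0, hz0⟩
  · rw [he, card_empty]
    exact Nat.zero_le _
  rw [mem_filter, mem_filter, mem_product] at hz0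
  obtain ⟨⟨⟨hz01, hz02⟩, k0, hk0⟩, hz0n⟩ := hz0
  have hb0 := mem_Box.1 hz01
  have hc0 := coinc (by omega) (by omega) hk0
  rw [hz0n] at hc0
  have hn'N : N < n' := by rw [← hz0n]; exact hb0.1.1
  set w0 : ℤ := z0.2 * z0.1.2 with hw0
  set S := ((Icc (-(W : ℤ)) W).filter (fun w => (n' : ℤ) ∣ w - w0)).erase 0 with hS
  have c1 : (((Box N M ×ˢ Hs r J).filter (fun z : (ℕ × ℕ) × ℤ =>
      ∃ k : ℤ, (h : ℝ) * ((m : ℝ) / n) - (z.2 : ℝ) * ((z.1.2 : ℝ) / z.1.1) = k)).filter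
        (fun z => z.1.1 = n')).card ≤
      (((Ioc M (2 * M)) ×ˢ Hs r J).filter (fun z => z.2 * (z.1 : ℤ) ∈ S)).card := by
    apply card_le_card_of_injOn (fun z : (ℕ × ℕ) × ℤ => (z.1.2, z.2))
    · intro z hz
      simp only [mem_coe] at hz ⊢
      rw [mem_filter, mem_filter, mem_product] at hz
      obtain ⟨⟨⟨hz1, hz2⟩, k, hk⟩, hzn⟩ := hz
      have hb := mem_Box.1 hz1
      have hc := coinc (by omega) (by omega) hk
      rw [hzn] at hc
      have hz3 := mem_Hs.1 hz2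
      rw [mem_filter, mem_product]
      refine ⟨⟨mem_Ioc.2 hb.2.1, hz2⟩, ?_⟩
      simp only
      have hprod : (z.2 * (z.1.2 : ℤ)).natAbs ≤ W := by
        rw [Int.natAbs_mul, Int.natAbs_natCast]
        exact Nat.mul_le_mul hz3.2 hb.2.1.2
      have hne : z.2 * (z.1.2 : ℤ) ≠ 0 := by
        apply mul_ne_zero hz3.1
        have : 0 < z.1.2 := by omega
        exact_mod_cast this.ne'
      rw [hS, mem_erase, mem_filter, mem_Icc]
      refine ⟨hne, ⟨by omega, by omega⟩, k0 - k, ?_⟩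
      have hn0 : (n : ℤ) ≠ 0 := by
        have : 0 < n := by omega
        exact_mod_cast this.ne'
      have e : (n : ℤ) * (z.2 * z.1.2 - w0) = n * (n' * (k0 - k)) := by
        rw [hw0]
        linarith
      exact mul_left_cancel₀ hn0 e
    · intro z hz z' hz' he
      simp only [mem_coe] at hz hz'
      have h1 := (mem_filter.1 hz).2
      have h2 := (mem_filter.1 hz').2
      simp only [Prod.mk.injEq] at he
      apply Prod.ext
      · apply Prod.ext
        · rw [h1, h2]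
        · exact he.1
      · exact he.2
  have c2 := card_mul (Ioc M (2 * M)) (Hs r J) W T S (by
    intro w hw
    rw [hS, mem_erase, mem_filter, mem_Icc] at hw
    exact ⟨hw.1, by omega⟩) hT
  refine (c1.trans c2).trans (Nat.mul_le_mul_left _ ?_)
  calc S.card ≤ ((Icc (-(W : ℤ)) W).filter (fun w => (n' : ℤ) ∣ w - w0)).card := card_erase_le
    _ ≤ 2 * W / n' + 2 := card_res_nat W n' (by omega) w0
    _ ≤ 2 * W / N + 2 := by
      apply Nat.add_le_add_right
      exact Nat.div_le_div_left hn'N.le (by omega)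

open Classical in
theorem partB {N M r J T : ℕ} (hN : 1 ≤ N) (hM : 1 ≤ M) (hr : 1 ≤ r) (hJ : 1 ≤ J)
    (hrJ : 2 * ((r : ℝ) * J) ≤ ((J : ℝ) * M / (2 * N)) ^ (2 * r))
    (hT : ∀ w : ℕ, 1 ≤ w → w ≤ r * J * (2 * M) → w.divisors.card ≤ T)
    (hT' : ∀ w : ℕ, 1 ≤ w → w ≤ 2 * N → w.divisors.card ≤ T) :
    (((Icc 1 (N * N / (2 * M) - 1)).filter Nat.Prime).card : ℝ) * (Box N M).card ≤
      400 * N ^ 2 * (T * (2 * (r * J * (2 * M)) / N + 2) * 2 * (2 * (r * J * T))) := by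
  set B := Box N M with hB
  have hN' : (0 : ℝ) < N := by exact_mod_cast hN
  have hM' : (0 : ℝ) < M := by exact_mod_cast hM
  set X := N * N / (2 * M) with hX
  have hXM : X * (2 * M) ≤ N * N := Nat.div_mul_le_self _ _
  have hcore := core B ((Icc 1 (X - 1)).filter Nat.Prime) X
    (by
      intro p hp
      have := mem_Icc.1 (mem_filter.1 hp).1
      omega)
    (fun b : ℕ × ℕ => (b.2 : ℝ) / b.1) (δ := (M : ℝ) / (4 * N)) (δ0 := 1 / (4 * (N : ℝ) ^ 2))
    (by positivity) (by positivity) hr hJ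
    (by
      have : 2 * (J : ℝ) * ((M : ℝ) / (4 * N)) = (J : ℝ) * M / (2 * N) := by
        field_simp
        ring
      rw [this]
      exact hrJ)
    (by
      intro b hb p hp k
      have hb' := mem_Box.1 hb
      have hp1 := mem_Icc.1 (mem_filter.1 hp).1
      refine avoid hb'.2.2.2 ?_ (mem_filter.1 hp).2 ?_ k
      · have h1 : (b.1 : ℝ) ≤ 2 * N := by exact_mod_cast hb'.1.2
        have h2 : (M : ℝ) ≤ b.2 := by exact_mod_cast hb'.2.1.1.le
        have h3 : 2 * ((M : ℝ) / (4 * N)) * b.1 ≤ 2 * ((M : ℝ) / (4 * N)) * (2 * N) :=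
          mul_le_mul_of_nonneg_left h1 (by positivity)
        have h4 : 2 * ((M : ℝ) / (4 * N)) * (2 * N) = M := by
          field_simp
          ring
        linarith
      · calc (p + 1) * b.2 ≤ X * (2 * M) := Nat.mul_le_mul (by omega) hb'.2.1.2
          _ ≤ N * N := hXM
          _ ≤ b.1 * b.1 := Nat.mul_le_mul hb'.1.1.le hb'.1.1.le)
    (by
      intro b hb b' hb' h h'
      have hb1 := mem_Box.1 hb
      have hb1' := mem_Box.1 hb'
      have hn : (0 : ℝ) < b.1 := by exact_mod_cast (by omega : 0 < b.1)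
      have hn' : (0 : ℝ) < b'.1 := by exact_mod_cast (by omega : 0 < b'.1)
      by_cases hd : ∃ k : ℤ, (h : ℝ) * ((b.2 : ℝ) / b.1) - h' * ((b'.2 : ℝ) / b'.1) = k
      · exact Or.inl hd
      · right
        intro k
        have e : (h : ℝ) * ((b.2 : ℝ) / b.1) - h' * ((b'.2 : ℝ) / b'.1) - k =
            ((h * b.2 * b'.1 - h' * b'.2 * b.1 - k * b.1 * b'.1 : ℤ) : ℝ) / (b.1 * b'.1) := by
          push_cast
          field_simp
        have hpos : (0 : ℝ) < (b.1 : ℝ) * b'.1 := mul_pos hn hn'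
        have h0 : (h * b.2 * b'.1 - h' * b'.2 * b.1 - k * b.1 * b'.1 : ℤ) ≠ 0 := by
          intro h0
          rw [h0] at e
          simp only [Int.cast_zero, zero_div] at e
          exact hd ⟨k, by linarith⟩
        rw [e, abs_div, abs_of_pos hpos]
        have h1 : (1 : ℝ) ≤ |((h * b.2 * b'.1 - h' * b'.2 * b.1 - k * b.1 * b'.1 : ℤ) : ℝ)| := by
          have := Int.one_le_abs h0
          exact_mod_cast this
        have h2 : (b.1 : ℝ) * b'.1 ≤ 4 * (N : ℝ) ^ 2 := by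
          have g1 : (b.1 : ℝ) ≤ 2 * N := by exact_mod_cast hb1.1.2
          have g2 : (b'.1 : ℝ) ≤ 2 * N := by exact_mod_cast hb1'.1.2
          calc (b.1 : ℝ) * b'.1 ≤ (2 * N) * (2 * N) := mul_le_mul g1 g2 hn'.le (by positivity)
            _ = _ := by ring
        calc 1 / (4 * (N : ℝ) ^ 2) ≤ 1 / ((b.1 : ℝ) * b'.1) := one_div_le_one_div_of_le hpos h2
          _ ≤ _ := div_le_div_of_nonneg_right h1 hpos.le)
    (μ := ((T * (2 * (r * J * (2 * M)) / N + 2) * 2 * (2 * (r * J * T)) : ℕ) : ℝ))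
    (by positivity)
    (by
      intro b hb
      have hb1 := mem_Box.1 hb
      have h1 : ∀ h ∈ Hs r J, (((B ×ˢ Hs r J).filter (fun z : (ℕ × ℕ) × ℤ =>
          ∃ k : ℤ, (h : ℝ) * ((b.2 : ℝ) / b.1) - (z.2 : ℝ) * ((z.1.2 : ℝ) / z.1.1) = k)).card : ℝ) ≤
          ((T * (2 * (r * J * (2 * M)) / N + 2)) * (2 * Nat.gcd h.natAbs b.1) : ℕ) := by
        intro h hh
        have := fib hb1.1.1 hb1.2.2.1 hN hT h (mem_Hs.1 hh).1
        exact_mod_cast this
      refine (sum_le_sum h1).trans ?_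
      rw [← Nat.cast_sum]
      have h2 : ∑ h ∈ Hs r J, (T * (2 * (r * J * (2 * M)) / N + 2)) * (2 * Nat.gcd h.natAbs b.1) ≤
          T * (2 * (r * J * (2 * M)) / N + 2) * 2 * (2 * (r * J * T)) := by
        have e : ∀ h ∈ Hs r J, (T * (2 * (r * J * (2 * M)) / N + 2)) * (2 * Nat.gcd h.natAbs b.1) =
            (T * (2 * (r * J * (2 * M)) / N + 2) * 2) * Nat.gcd h.natAbs b.1 := by
          intro h _
          ring
        rw [sum_congr rfl e, ← mul_sum]
        apply Nat.mul_le_mul_left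
        refine (sum_Hs_gcd r J b.1 (by omega)).trans ?_
        apply Nat.mul_le_mul_left
        apply Nat.mul_le_mul_left
        exact hT' b.1 (by omega) hb1.1.2
      exact_mod_cast h2)
  refine hcore.trans ?_
  have hX2 : (X : ℝ) ≤ N ^ 2 := by
    have : X ≤ N * N := Nat.div_le_self _ _
    have h : (X : ℝ) ≤ N * N := by exact_mod_cast this
    rw [sq]
    exact h
  have e1 : 80 * ((X : ℝ) + 1 / (1 / (4 * (N : ℝ) ^ 2))) ≤ 400 * N ^ 2 := by
    rw [one_div_one_div]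
    linarith
  have e2 : ((T * (2 * (r * J * (2 * M)) / N + 2) * 2 * (2 * (r * J * T)) : ℕ) : ℝ) ≤
      (T * (2 * (r * J * (2 * M)) / N + 2) * 2 * (2 * (r * J * T)) : ℝ) := by
    push_cast
    have : (((2 * (r * J * (2 * M)) / N : ℕ)) : ℝ) ≤ 2 * (r * J * (2 * M)) / N := by
      have := Nat.cast_div_le (m := 2 * (r * J * (2 * M))) (n := N) (α := ℝ)
      push_cast at this
      exact this
    gcongr
  calc 80 * ((X : ℝ) + 1 / (1 / (4 * (N : ℝ) ^ 2))) *
        ((T * (2 * (r * J * (2 * M)) / N + 2) * 2 * (2 * (r * J * T)) : ℕ) : ℝ)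
      ≤ 400 * N ^ 2 * ((T * (2 * (r * J * (2 * M)) / N + 2) * 2 * (2 * (r * J * T)) : ℕ) : ℝ) :=
        mul_le_mul_of_nonneg_right e1 (Nat.cast_nonneg _)
    _ ≤ _ := mul_le_mul_of_nonneg_left e2 (by positivity)

end Pool.Agent.FK93
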